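import Pool.Agent.Work.MP_db9399_sg.Interface

/-!
# MP_db9399, OUTX: assembly of the outside stage (helper72)

`V` = real vertices and dummies of all classes, `W` = the real ones, `O ⊆ W`, `J` = classes, nodes
`i : I` (parts of the pieces), `pr i` = piece of the node. `H j` = real edges of the class, `Gh j` =
with the host edges, `D j` degree, `r j` degree of the reserve, `D j - r j` colours.

OXB: AN, KERX, TOKN (OXT), FILL (OXF) give the reserves `S j` and the matchings `N0 b` (real edges,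
structure `Mt0`), `N b` (filled, structure `Mt1`). Own colours: structure `Own1` (from OWNG). OXC: KMLN, ENGN give `OutN`.
OXD: dummies are dropped: structure `Rl`.
-/

set_option autoImplicit false

namespace Pool.Agent.Work.MP_db9399_ox

open Finset Classical
open Pool.Agent.Work.MP_db9399_all (nb)
open Pool.Agent.Work.MP_db9399_cg (cdg pk sx sp)
open Pool.Agent.Work.MP_db9399_sg
open Pool.Agent.Work.MP_db9399_en (HH wlk resE resO Wts)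

universe u

section Defs

variable {V I I' J : Type u} [Fintype V] [Fintype I] [Fintype I'] [Fintype J]

/-- signed sum of the degrees of the node `i` -/
noncomputable def sdg (H : SimpleGraph V) (nd : V → Option (I × Bool)) (i : I) : ℝ :=
  ∑ v ∈ nsd nd i false, ((nb H v).card : ℝ) - ∑ v ∈ nsd nd i true, ((nb H v).card : ℝ)

/-- All classes on one vertex set. `one`: a dummy belongs to one class. `dum`: host edges have a
dummy as an end. `C`: `D j ≥ d / C`; `C'`: sizes of the nodes. -/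
structure Cls (H Gh : J → SimpleGraph V) (O W : Finset V) (A Ex : J → Finset V)
    (nd : J → V → Option (I × Bool)) (pr : I → I') (d : ℕ) (D r : J → ℕ)
    (a MS g δ β c1 C C' ρ0 : ℝ) : Prop where
  wld : ∀ j, Wld (H j) (Gh j) O (A j) (Ex j) (nd j) (D j) MS g δ β c1 C' ρ0
  OW : O ⊆ W
  HW : ∀ j v w, (H j).Adj v w → v ∈ W
  dum : ∀ j v w, (Gh j).Adj v w → ¬ (H j).Adj v w → v ∉ W ∨ w ∉ W
  one : ∀ j j' v, v ∉ W → v ∈ A j → v ∈ A j' → j = j'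
  dis : ∀ j j' v w, j ≠ j' → (H j).Adj v w → ¬ (H j').Adj v w
  lgt : ∀ j v, nd j v ≠ none → 8 * (nb (H j) v).card ≤ D j
  sz : ∀ j i s s', 20 * D j + 8 * (nsd (nd j) i s ∩ W).card ≤ (nsd (nd j) i s').card
  bal : ∀ j i, |sdg (H j) (nd j) i| ≤ D j
  prc : ∀ i', (univ.filter fun i => pr i = i').card ≤ 2
  Dd : ∀ j, D j ≤ d ∧ (d : ℝ) ≤ C * D j
  Jc : (Fintype.card J : ℝ) ≤ C
  rr : ∀ j, Odd (r j) ∧ 2 * (D j : ℝ) ^ (1 - a) ≤ r j ∧ (r j : ℝ) + 2 ≤ (D j : ℝ) ^ (1 - a / 3)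
  rd : ∀ j, (d : ℝ) ^ (1 - a) ≤ r j

/-- the kernel facts of one class -/
structure Krn (S : SimpleGraph V) (O : Finset V) (r L D : ℕ) (a C1 e : ℝ) : Prop where
  l2 : ∀ v, ∑ x ∈ O, (k0 S r L v x + k1 S r L v x) ^ 2 ≤ e / D
  sup : ∀ v x, k0 S r L v x + k1 S r L v x ≤ C1 / D
  l1 : ∀ v, ∑ x, (k0 S r L v x + k1 S r L v x) ≤ 3
  mean : ∀ v, |∑ x ∈ O, (k0 S r L v x - k1 S r L v x)| ≤ e
  spx : ∀ v, ((univ.filter fun x => k0 S r L v x + k1 S r L v x ≠ 0).card : ℝ) ≤ sx D a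
  spv : ∀ x, ((univ.filter fun v => k0 S r L v x + k1 S r L v x ≠ 0).card : ℝ) ≤ sx D a

/-- signed number of the piece `i'` -/
noncomputable def sgP {P : ℕ} (nd : V → Option (I × Bool)) (pr : I → I') (N : Fin P → V → V)
    (i' : I') (b : Fin P) : ℝ := ∑ i with pr i = i', (sgn nd N i b : ℝ)

/-- The matchings `N0 b` of the real edges outside the reserves. `ρ1`: a small number. -/
structure Mt0 {P : ℕ} (H S : J → SimpleGraph V) (cl : Fin P → J) (O : Finset V)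
    (nd : J → V → Option (I × Bool)) (pr : I → I') (d : ℕ) (D r : J → ℕ) (a ε1 ρ1 : ℝ) (L : ℕ)
    (N0 : Fin P → V → V) : Prop where
  NN : ∀ b v, N0 b (N0 b v) = v
  NG : ∀ b v, N0 b v ≠ v → (H (cl b)).Adj v (N0 b v) ∧ ¬ (S (cl b)).Adj v (N0 b v)
  Nd : ∀ b b' v, N0 b v ≠ v → N0 b v = N0 b' v → b = b'
  co : ∀ j v w, (H j).Adj v w → ¬ (S j).Adj v w → ∃ b, cl b = j ∧ N0 b v = w
  sum : ∀ j i, |∑ b with cl b = j, (sgn (nd j) N0 i b : ℝ) - sdg (H j) (nd j) i| ≤ ρ1 * d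
  win : ∀ b i, |(sgn (nd (cl b)) N0 i b : ℝ) - sdg (H (cl b)) (nd (cl b)) i /
    ((D (cl b) : ℝ) - r (cl b))| ≤ 2 + ρ1
  winS : ∀ j i, ∑ b with cl b = j, |(sgn (nd j) N0 i b : ℝ) - sdg (H j) (nd j) i /
    ((D j : ℝ) - r j)| ≤ (1 + ε1) * ((D j : ℝ) - r j) + ρ1 * d
  winP : ∀ b i', |sgP (nd (cl b)) pr N0 i' b - (∑ i with pr i = i',
    sdg (H (cl b)) (nd (cl b)) i) / ((D (cl b) : ℝ) - r (cl b))| ≤ 2 + ρ1
  winPS : ∀ j i', ∑ b with cl b = j, |sgP (nd j) pr N0 i' b - (∑ i with pr i = i',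
    sdg (H j) (nd j) i) / ((D j : ℝ) - r j)| ≤ (1 + ε1) * ((D j : ℝ) - r j) + ρ1 * d
  load : ∀ b i s, (((nsd (nd (cl b)) i s).filter fun v => N0 b v ≠ v).card : ℝ) ≤
    8 * ((∑ v ∈ nsd (nd (cl b)) i s, ((nb (H (cl b)) v).card : ℝ)) /
      ((D (cl b) : ℝ) - r (cl b))) + sp d a
  tok : ∀ b v, (((nb (S (cl b)) v ∩ O).filter fun w => N0 b w = w).card : ℝ) ≤ sp d a
  tkc : ∀ j, ∀ x ∈ O, (univ.filter fun b => cl b = j ∧ N0 b x = x).card + (nb (H j) x).card +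
    r j = D j + (nb (S j) x).card
  tst : ∀ j v, ∑ b with cl b = j, |∑ x ∈ O.filter (fun x => N0 b x = x),
    (k0 (S j) (r j) L v x - k1 (S j) (r j) L v x)| ≤ ε1

/-- The filled matchings `N b`. -/
structure Mt1 {P : ℕ} (S : J → SimpleGraph V) (cl : Fin P → J) (W : Finset V)
    (nd : J → V → Option (I × Bool)) (N0 N : Fin P → V → V) : Prop where
  NN : ∀ b v, N b (N b v) = v
  ext : ∀ b v, N0 b v ≠ v → N b v = N0 b v
  fil : ∀ b v, N0 b v = v → N b v ≠ v → ∃ i s, nd (cl b) v = some (i, s) ∧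
    nd (cl b) (N b v) = some (i, !s) ∧ ¬ (S (cl b)).Adj v (N b v) ∧ (v ∉ W ∨ N b v ∉ W)
  Nd : ∀ b b' v, N b v ≠ v → N b v = N b' v → b = b'
  ful : ∀ b v, nd (cl b) v ≠ none → N b v = v → v ∉ W
  cnt : ∀ b i, ((nod (nd (cl b)) i).filter fun v => N b v = v).card =
    (sgn (nd (cl b)) N0 i b).natAbs

/-- The own colours of the vertices of `U ⊆ O` (output of OWNG). `E` = all real edges. -/
structure Own1 {P : ℕ} (E : SimpleGraph V) (H S : J → SimpleGraph V) (cl : Fin P → J)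
    (O U : Finset V) (nd : J → V → Option (I × Bool)) (d : ℕ) (r : J → ℕ) (a C2 e2 ε1 : ℝ) (L : ℕ)
    (c : V → Option (Fin P)) (N : Fin P → V → V) : Prop where
  UO : U ⊆ O
  dom : ∀ v, c v ≠ none ↔ v ∈ U
  cp : ∀ v w, E.Adj v w → c v ≠ none → c v ≠ c w
  own : OwnN S cl O d r a c N
  ow : ∀ b y, (((nb (S (cl b)) y).filter fun x => c x = some b ∨
    (x ∉ O ∧ c (N b x) = some b)).card : ℝ) ≤ sp d a
  tst : ∀ j v, ∑ b with cl b = j, |∑ x ∈ tkN O c N b,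
      (k0 (S j) (r j) L v x - k1 (S j) (r j) L v x)| ≤
    ∑ b with cl b = j, |∑ x ∈ O.filter (fun x => N b x = x),
      (k0 (S j) (r j) L v x - k1 (S j) (r j) L v x)| + ε1
  mlt : ∀ j v, ∑ x ∈ O, (k0 (S j) (r j) L v x + k1 (S j) (r j) L v x) ^ 2 *
    ((univ.filter fun b => cl b = j ∧ x ∈ tkN O c N b).card : ℝ) ≤ e2 / d
  vdc : ∀ v, ((univ.filter fun b => c (N b v) = some b).card : ℝ) ≤ sp d a
  ndc : ∀ b i, (((nod (nd (cl b)) i).filter fun v => c (N b v) = some b).card : ℝ) ≤ sp d a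
  nds : ∀ j i, ∑ b with cl b = j, (((nod (nd j) i).filter fun v => c (N b v) = some b).card : ℝ) ≤
    C2 * ((∑ v ∈ nod (nd j) i, ((nb (H j) v).card : ℝ)) / d) + ε1 * d

/-- the graph of the machine: real edges inside `O`, reserves, filled matchings -/
def GG {P : ℕ} (E : SimpleGraph V) (O : Finset V) (S : J → SimpleGraph V) (N : Fin P → V → V) :
    SimpleGraph V where
  Adj v w := v ≠ w ∧ ((E.Adj v w ∧ v ∈ O ∧ w ∈ O) ∨ (∃ j, (S j).Adj v w) ∨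
    ∃ b, N b v = w ∧ N b w = v)
  symm := ⟨fun _ _ h => ⟨h.1.symm, h.2.imp (fun h => ⟨h.1.symm, h.2.2, h.2.1⟩) (Or.imp
    (fun ⟨j, h⟩ => ⟨j, h.symm⟩) fun ⟨b, h⟩ => ⟨b, h.2, h.1⟩)⟩⟩
  loopless := ⟨fun _ h => h.1 rfl⟩

/-- the node of `v` in the class `j` -/
def nnj (nd : J → V → Option (I × Bool)) (j : J) (v : V) : Option I := (nd j v).map Prod.fst

/-- the colours of the real edges at `v` -/
noncomputable def rcl {P : ℕ} (N0 : Fin P → V → V) (v : V) : Finset (Fin P) :=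
  univ.filter fun b => N0 b v ≠ v

/-- The real part after the engine. `H j` class graphs on the real vertices, `nd j` nodes, `E` all
real edges, `m j i` size of a side of the gadget, `f b` matchings. `ε` is absolute, `ε2` arbitrarily
small. -/
structure Rl {P : ℕ} (E : SimpleGraph V) (H : J → SimpleGraph V) (cl : Fin P → J) (O : Finset V)
    (nd : J → V → Option (I × Bool)) (pr : I → I') (d : ℕ) (D r : J → ℕ) (m : J → I → ℕ)
    (ε ε2 C₀ : ℝ) (c : V → Option (Fin P)) (f : Fin P → V → V) : Prop where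
  ff : ∀ b v, f b (f b v) = v
  fG : ∀ b v, f b v ≠ v → (H (cl b)).Adj v (f b v)
  fd : ∀ b b' v, f b v ≠ v → f b v = f b' v → b = b'
  fo : ∀ b v, c v = some b → f b v = v
  mis : ∀ v ∈ O, (univ.filter fun b => f b v = v ∧ c v ≠ some b).card ≤ 1
  ind : ∀ v ∈ O, ∀ w ∈ O, ∀ b b', f b v = v → c v ≠ some b → f b' w = w → c w ≠ some b' →
    E.Adj v w → ∃ b'', f b'' v = w
  sup : ∀ b i, |(sgn (nd (cl b)) f i b : ℝ)| ≤ (d : ℝ) ^ (1 / 200 : ℝ)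
  win : ∀ j i, ∑ b with cl b = j, |(sgn (nd j) f i b : ℝ) - sdg (H j) (nd j) i /
    ((D j : ℝ) - r j)| ≤ (1 + ε) * ((D j : ℝ) - r j) + C₀ * ((∑ v ∈ nod (nd j) i,
      ((nb (H j) v).card : ℝ)) / d) + ε * m j i + ε * d
  winP : ∀ j i', ∑ b with cl b = j, |sgP (nd j) pr f i' b - (∑ i with pr i = i',
    sdg (H j) (nd j) i) / ((D j : ℝ) - r j)| ≤ (1 + ε) * ((D j : ℝ) - r j) + ε * d +
      ∑ i with pr i = i', (C₀ * ((∑ v ∈ nod (nd j) i, ((nb (H j) v).card : ℝ)) / d) +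
        ε * m j i + ε * d)
  sm : ∀ j i, |∑ b with cl b = j, (sgn (nd j) f i b : ℝ) - sdg (H j) (nd j) i| ≤
    C₀ * ((∑ v ∈ nod (nd j) i, ((nb (H j) v).card : ℝ)) / d) + ε * m j i + ε * d
  exc : ∀ j i, ∑ b with cl b = j, max (|(sgn (nd j) f i b : ℝ) - sdg (H j) (nd j) i /
    ((D j : ℝ) - r j)| - 5 / 2) 0 ≤ C₀ * ((∑ v ∈ nod (nd j) i, ((nb (H j) v).card : ℝ)) / d) +
      ε * m j i + ε * d
  load : ∀ b i s, (((nsd (nd (cl b)) i s).filter fun v => f b v ≠ v).card : ℝ) ≤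
    C₀ * ((∑ v ∈ nsd (nd (cl b)) i s, ((nb (H (cl b)) v).card : ℝ)) / d) + ε2 * d
  lft : ∀ j v, nd j v ≠ none → ((nb (H j) v).card : ℝ) ≤
    ((univ.filter fun b => cl b = j ∧ f b v ≠ v).card : ℝ) +
      C₀ * (r j / d) * (∑ j', ((nb (H j') v).card : ℝ)) + ε2 * r j

end Defs

/-- OXT: from TOKN. -/
def Stmt_OXT : Prop :=
  ∀ a C1 ε1 : ℝ, 0 < a → a ≤ 1 / 100 → 0 < C1 → 0 < ε1 → ε1 ≤ 1 → ∃ e : ℝ, 0 < e ∧
    ∀ MS δ β c1 ρ0 ρ2 C C' : ℝ, 0 < ρ0 → ρ0 ≤ ε1 / 1000 → 1 ≤ C → C ≤ C' → ∃ d0 : ℕ,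
    ∀ {V I I' J : Type u} [Fintype V] [Fintype I] [Fintype I'] [Fintype J] (P : ℕ)
      (cl : Fin P → J) (H Gh S : J → SimpleGraph V) (O W K : Finset V) (A Ex Exc : J → Finset V)
      (nd : J → V → Option (I × Bool)) (pr : I → I') (d : ℕ) (D r : J → ℕ) (g : ℝ) (L : ℕ),
      d0 ≤ d → Cls H Gh O W A Ex nd pr d D r a MS g δ β c1 C C' ρ0 →
      (∀ j, (univ.filter fun b => cl b = j).card + r j = D j) →
      (∀ j, ResN (H j) (Gh j) (S j) O (A j) (D j) (r j) a (g / 100) δ (2 * β + 8 * ρ0)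
          (c1 / 100) (8 * ρ0) (8 * ρ2) MS K (Exc j)) →
      (∀ j, Krn (S j) O (r j) L (D j) a C1 e) →
      ∃ N0 : Fin P → V → V, Mt0 H S cl O nd pr d D r a ε1 (1000 * C' ^ 2 * ρ0) L N0

/-- OXF: the gadgets are filled (proof of FILL, node by node with different sizes). -/
def Stmt_OXF : Prop :=
  ∀ {V I I' J : Type u} [Fintype V] [Fintype I] [Fintype I'] [Fintype J] (P : ℕ)
    (cl : Fin P → J) (H Gh S : J → SimpleGraph V) (O W K : Finset V) (A Ex Exc : J → Finset V)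
    (nd : J → V → Option (I × Bool)) (pr : I → I') (d : ℕ) (D r : J → ℕ)
    (a MS g δ β c1 C C' ρ0 ρ2 ε1 ρ1 : ℝ) (L : ℕ) (N0 : Fin P → V → V), (∀ j, 16 ≤ D j) →
    Cls H Gh O W A Ex nd pr d D r a MS g δ β c1 C C' ρ0 →
    (∀ j, (univ.filter fun b => cl b = j).card + r j = D j) →
    (∀ j, ResN (H j) (Gh j) (S j) O (A j) (D j) (r j) a (g / 100) δ (2 * β + 8 * ρ0)
        (c1 / 100) (8 * ρ0) (8 * ρ2) MS K (Exc j)) →
    Mt0 H S cl O nd pr d D r a ε1 ρ1 L N0 →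
    ∃ N : Fin P → V → V, Mt1 S cl W nd N0 N

/-- OXB: reserves and matchings. -/
def Stmt_OXB : Prop :=
  ∀ a c1 : ℝ, 0 < a → a ≤ 1 / 100 → 0 < c1 → c1 ≤ 1 → ∃ C1 : ℝ, 0 < C1 ∧
    ∀ e ε1 : ℝ, 0 < e → 0 < ε1 → ε1 ≤ 1 → ∃ MS δ β : ℝ, 1 ≤ MS ∧ 0 < δ ∧ 0 < β ∧
    ∀ ρ0 ρ2 C C' : ℝ, 0 < ρ2 → ρ2 ≤ ρ0 → ρ0 ≤ β → ρ0 ≤ ε1 / 1000 → 1 ≤ C → C ≤ C' → ∃ d0 : ℕ,
    ∀ {V I I' J : Type u} [Fintype V] [Fintype I] [Fintype I'] [Fintype J] (P : ℕ)
      (cl : Fin P → J) (H Gh : J → SimpleGraph V) (O W : Finset V) (A Ex : J → Finset V)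
      (nd : J → V → Option (I × Bool)) (pr : I → I') (d : ℕ) (D r : J → ℕ) (g : ℝ), d0 ≤ d →
      (d : ℝ) ^ (-(a / 200)) ≤ g → g ≤ 1 →
      Cls H Gh O W A Ex nd pr d D r a MS g δ β c1 C C' ρ0 →
      (∀ j, (univ.filter fun b => cl b = j).card + r j = D j) →
      ∃ (S : J → SimpleGraph V) (K : Finset V) (Exc : J → Finset V) (L : ℕ)
        (N0 N : Fin P → V → V), 2 ≤ L ∧ (L : ℝ) ≤ (d : ℝ) ^ (a / 30) ∧
        (∀ j, ResN (H j) (Gh j) (S j) O (A j) (D j) (r j) a (g / 100) δ (2 * β + 8 * ρ0)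
          (c1 / 100) (8 * ρ0) (8 * ρ2) MS K (Exc j)) ∧
        (∀ j, Krn (S j) O (r j) L (D j) a C1 e) ∧
        Mt0 H S cl O nd pr d D r a ε1 (1000 * C' ^ 2 * ρ0) L N0 ∧ Mt1 S cl W nd N0 N

/-- OXC: labels, `Km`, engine. `a1` = parameter of the own colours. `C` bounds also the number of real edges inside `O` at a vertex which
are in no class. -/
def Stmt_OXC : Prop :=
  ∃ ε₀ C₀ : ℝ, 0 < ε₀ ∧ ε₀ ≤ 1 / 2500 ∧ 0 < C₀ ∧
    ∀ a a1 C C1 ε : ℝ, 0 < a → a ≤ a1 → a1 ≤ 1 / 100 → a1 ≤ ε₀ → 4 ≤ C → 0 < C1 → 0 < ε → ε ≤ 1 →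
    ∃ e ε1 : ℝ, 0 < e ∧ 0 < ε1 ∧ ε1 ≤ 1 ∧ ∀ MS δ β c1 C' C2 ρ0 ρ2 : ℝ, 0 < ρ0 → ∃ d0 : ℕ,
    ∀ {V I I' J : Type u} [Fintype V] [Fintype I] [Fintype I'] [Fintype J] (P : ℕ)
      (cl : Fin P → J) (E : SimpleGraph V) (H Gh S : J → SimpleGraph V) (O W U K : Finset V)
      (A Ex Exc : J → Finset V) (nd : J → V → Option (I × Bool)) (pr : I → I') (d : ℕ)
      (D r : J → ℕ) (g : ℝ) (L : ℕ) (N0 N : Fin P → V → V) (c : V → Option (Fin P)), d0 ≤ d →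
      Cls H Gh O W A Ex nd pr d D r a MS g δ β c1 C C' ρ0 →
      (∀ j, (univ.filter fun b => cl b = j).card + r j = D j) → P ≤ d →
      (∀ v, (nb E v).card ≤ d) → (∀ v w, E.Adj v w → v ∈ W) → (∀ j, H j ≤ E) →
      (∀ v ∈ O, (((nb E v ∩ O).filter fun w => ∀ j, ¬ (H j).Adj v w).card : ℝ) ≤ C) →
      2 ≤ L → (L : ℝ) ≤ (d : ℝ) ^ (a / 30) →
      (∀ j, ResN (H j) (Gh j) (S j) O (A j) (D j) (r j) a (g / 100) δ (2 * β + 8 * ρ0)
          (c1 / 100) (8 * ρ0) (8 * ρ2) MS K (Exc j)) →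
      (∀ j, Krn (S j) O (r j) L (D j) a C1 e) →
      Mt0 H S cl O nd pr d D r a ε1 (1000 * C' ^ 2 * ρ0) L N0 → Mt1 S cl W nd N0 N →
      Own1 E H S cl O U nd d r a1 C2 e ε1 L c N →
      ∃ (Km : Finset V) (F : Fin P → V → V),
        OutN (GG E O S N) S cl O (nnj nd) d r ε ε₀ C₀ ((d : ℝ) ^ (10 * ε₀)) (rcl N0) c N Km F

/-- OXD: the dummies are dropped. `W` = real vertices. -/
def Stmt_OXD : Prop :=
  ∀ ε₀ C₀ C C2 ε : ℝ, 0 < ε₀ → ε₀ ≤ 1 / 2500 → 0 < C₀ → 4 ≤ C → 0 < C2 → 0 < ε → ε ≤ 1 →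
    ∃ C3 : ℝ, 0 < C3 ∧ ∀ a a1 MS δ β c1 C' ρ0 ρ2 ε1 ε2 : ℝ, 0 < a → a ≤ a1 → a1 ≤ 1 / 100 → 0 < ε1 → ε1 ≤ ε / 4 →
    0 < ρ0 → 4000 * C' ^ 2 * ρ0 ≤ ε → 0 < ε2 → 16 * ρ2 ≤ ε2 → ∃ d0 : ℕ,
    ∀ {W Y I I' J : Type u} [Fintype W] [Fintype Y] [Fintype I] [Fintype I'] [Fintype J] (P : ℕ)
      (cl : Fin P → J) (E : SimpleGraph W) (H : J → SimpleGraph W)
      (Gh S : J → SimpleGraph (W ⊕ Y)) (O U : Finset W) (K Km : Finset (W ⊕ Y))
      (A Ex Exc : J → Finset (W ⊕ Y)) (nd : J → W ⊕ Y → Option (I × Bool)) (pr : I → I') (d : ℕ)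
      (D r : J → ℕ) (g : ℝ) (L : ℕ) (N0 N F : Fin P → W ⊕ Y → W ⊕ Y)
      (c : W ⊕ Y → Option (Fin P)),
      d0 ≤ d →
      Cls (fun j => (H j).map Function.Embedding.inl) Gh (O.map Function.Embedding.inl)
        (univ.map Function.Embedding.inl) A Ex nd pr d D r a MS g δ β c1 C C' ρ0 →
      (∀ j, (univ.filter fun b => cl b = j).card + r j = D j) → (∀ j, H j ≤ E) →
      (∀ j, ResN ((H j).map Function.Embedding.inl) (Gh j) (S j)
          (O.map Function.Embedding.inl) (A j) (D j) (r j) a (g / 100) δ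
          (2 * β + 8 * ρ0) (c1 / 100) (8 * ρ0) (8 * ρ2) MS K (Exc j)) →
      Mt0 (fun j => (H j).map Function.Embedding.inl) S cl (O.map Function.Embedding.inl)
        nd pr d D r a ε1 (1000 * C' ^ 2 * ρ0) L N0 →
      Mt1 S cl (univ.map Function.Embedding.inl) nd N0 N →
      Own1 (E.map Function.Embedding.inl) (fun j => (H j).map Function.Embedding.inl) S cl
        (O.map Function.Embedding.inl) (U.map Function.Embedding.inl) nd d r a1 C2 1 ε1 L c N →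
      OutN (GG (E.map Function.Embedding.inl) (O.map Function.Embedding.inl) S N) S cl
        (O.map Function.Embedding.inl) (nnj nd) d r (ε / 4) ε₀ C₀ ((d : ℝ) ^ (10 * ε₀)) (rcl N0) c N Km F →
      ∃ f : Fin P → W → W, (∀ b v w, v ≠ w → (f b v = w ↔ F b (Sum.inl v) = Sum.inl w)) ∧
        Rl E H cl O (fun j v => nd j (Sum.inl v)) pr d D r
          (fun j i => (nsd (nd j) i false).card) ε ε2 C3 (fun v => c (Sum.inl v)) f

end Pool.Agent.Work.MP_db9399_ox
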