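import Pool.Agent.Work.MP_db9399_ox.Wt

/-! # OUTX: numbers for OXC (helper72) -/

set_option autoImplicit false

namespace Pool.Agent.Work.MP_db9399_ox

open Finset Filter Topology
open Pool.Agent.Work.MP_db9399_cg (cdg pk sx sp)

theorem hpow (b : ℝ) (hb : 0 < b) : Tendsto (fun d : ℕ => (d : ℝ) ^ b) atTop atTop :=
  (tendsto_rpow_atTop hb).comp tendsto_natCast_atTop_atTop

theorem hlogd (b C : ℝ) (hb : 0 < b) (hC : 0 < C) :
    ∀ᶠ d : ℕ in atTop, Real.log d ≤ C * (d : ℝ) ^ b := by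
  have h1 := (isLittleO_log_rpow_atTop hb).bound hC
  have h2 := tendsto_natCast_atTop_atTop.eventually h1
  filter_upwards [h2, eventually_ge_atTop 1] with d h3 h4
  have h5 : (1 : ℝ) ≤ d := by exact_mod_cast h4
  rw [Real.norm_of_nonneg (Real.log_nonneg h5),
    Real.norm_of_nonneg (Real.rpow_nonneg (by linarith) _)] at h3
  exact h3

theorem hlogt : Tendsto (fun d : ℕ => Real.log d) atTop atTop :=
  Real.tendsto_log_atTop.comp tendsto_natCast_atTop_atTop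

/-- large `d` -/
structure NumC (a ε₀ C C' ρ1 ρ ε : ℝ) (d : ℕ) : Prop where
  d1 : (1 : ℝ) ≤ d
  k3 : 3 ≤ ⌈(d : ℝ) ^ (a / 5)⌉₊
  ksp : sp d a ≤ ⌈(d : ℝ) ^ (a / 5)⌉₊
  kC' : 2 * C' ≤ ⌈(d : ℝ) ^ (a / 5)⌉₊
  kT : 2 * sp d a + 4 + ρ1 ≤ ⌈(d : ℝ) ^ (a / 5)⌉₊
  kC : C ≤ ⌈(d : ℝ) ^ (a / 5)⌉₊
  kε : (⌈(d : ℝ) ^ (a / 5)⌉₊ : ℝ) ≤ (d : ℝ) ^ ε₀
  xε : 2 * (d : ℝ) ^ (a / 30) ≤ (d : ℝ) ^ ε₀
  r3 : C * (d : ℝ) ^ (1 - a / 3) ≤ d
  D2 : ∀ D : ℕ, (d : ℝ) ≤ C * D → 1 ≤ D ∧ 2 * (D : ℝ) ^ (1 - a / 3) ≤ D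
  sx : ∀ L r : ℕ, (L : ℝ) ≤ (d : ℝ) ^ (a / 30) → r ≤ d →
    C * ((2 * (L : ℝ) + 1) * ((r : ℝ) + 2) ^ (4 * L)) ≤ sx d a
  ms : ∀ L r : ℕ, (L : ℝ) ≤ (d : ℝ) ^ (a / 30) → (d : ℝ) ^ (1 - a) ≤ r →
    (((r : ℝ) + 2) / r) ^ (4 * L) ≤ 2
  tk : ∀ r : ℕ, (d : ℝ) ^ (1 - a) ≤ r → 8 * sp d a / r ≤ (d : ℝ) ^ (-(3 / 4) : ℝ)
  eρ : (d : ℝ) ^ (-ε₀) ≤ ρ
  eε : (d : ℝ) ^ (-ε₀) ≤ ε

theorem numC (a ε₀ C C' ρ1 ρ ε : ℝ) (ha : 0 < a) (ha1 : a ≤ 1 / 100) (haε : a ≤ ε₀) (hC : 1 ≤ C)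
    (hρ : 0 < ρ) (hε : 0 < ε) : ∃ d1 : ℕ, ∀ d : ℕ, d1 ≤ d → NumC a ε₀ C C' ρ1 ρ ε d := by
  have hε0 : 0 < ε₀ := ha.trans_le haε
  have hC0 : 0 < C := by linarith
  have e1 := (hpow (a / 10) (by positivity)).eventually_ge_atTop
    (3 + |2 * C'| + (2 + |4 + ρ1|) + C)
  have e2 := (hpow (a / 30) (by positivity)).eventually_ge_atTop 2
  have e3 := (hpow (a / 3) (by positivity)).eventually_ge_atTop C
  have e4 := (tendsto_natCast_atTop_atTop (R := ℝ)).eventually_ge_atTop (C * (2 : ℝ) ^ (3 / a))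
  have e5 := hlogd (a / 60) (1 / 9) (by positivity) (by norm_num)
  have e6 := hlogt.eventually_ge_atTop (Real.log C + 2)
  have e7 := (hpow (1 / 8) (by norm_num)).eventually_ge_atTop (8 + 8 / Real.log 2)
  have e8 := (hpow ε₀ hε0).eventually_ge_atTop (1 / ρ + 1 / ε)
  obtain ⟨d0, hd0⟩ := (e1.and (e2.and (e3.and (e4.and (e5.and (e6.and (e7.and
    e8))))))).exists_forall_of_atTop
  refine ⟨max d0 3, fun d hd => ?_⟩
  obtain ⟨f1, f2, f3, f4, f5, f6, f7, f8⟩ := hd0 d (le_trans (le_max_left _ _) hd)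
  have hd3 : (3 : ℝ) ≤ d := by exact_mod_cast le_trans (le_max_right _ _) hd
  have hd1 : (1 : ℝ) ≤ d := by linarith
  have hdp : (0 : ℝ) < d := by linarith
  have hl2 : 0 < Real.log 2 := Real.log_pos (by norm_num)
  have hceil : (d : ℝ) ^ (a / 5) ≤ ⌈(d : ℝ) ^ (a / 5)⌉₊ := Nat.le_ceil _
  have hx1 : (1 : ℝ) ≤ (d : ℝ) ^ (a / 10) := by
    have h1 := abs_nonneg (2 * C')
    have h2 := abs_nonneg (4 + ρ1)
    linarith
  have h5 : (d : ℝ) ^ (a / 5) = (d : ℝ) ^ (a / 10) * (d : ℝ) ^ (a / 10) := by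
    rw [← Real.rpow_add hdp]
    congr 1
    ring
  have hbig : (3 + |2 * C'| + (2 + |4 + ρ1|) + C) * (d : ℝ) ^ (a / 10) ≤
      ⌈(d : ℝ) ^ (a / 5)⌉₊ := by
    refine le_trans ?_ hceil
    rw [h5]
    exact mul_le_mul_of_nonneg_right f1 (by linarith)
  have hsp : sp d a = (d : ℝ) ^ (a / 10) := rfl
  have habs1 := abs_nonneg (2 * C')
  have habs2 := abs_nonneg (4 + ρ1)
  have habs3 := le_abs_self (2 * C')
  have habs4 := le_abs_self (4 + ρ1)
  have hmul : ∀ y : ℝ, 0 ≤ y → y ≤ y * (d : ℝ) ^ (a / 10) := fun y hy =>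
    le_mul_of_one_le_right hy hx1
  obtain ⟨X, hX⟩ : ∃ X, X = (d : ℝ) ^ (a / 10) := ⟨_, rfl⟩
  refine ⟨hd1, ?_, ?_, ?_, ?_, ?_, ?_, ?_, ?_, ?_, ?_, ?_, ?_, ?_, ?_⟩
  · have h1 : (3 : ℝ) ≤ ⌈(d : ℝ) ^ (a / 5)⌉₊ := by
      have h2 := hmul |2 * C'| habs1
      have h3 := hmul (2 + |4 + ρ1|) (by linarith)
      have h4 := hmul C hC0.le
      have h6 := hmul 3 (by norm_num)
      have e : (3 + |2 * C'| + (2 + |4 + ρ1|) + C) * (d : ℝ) ^ (a / 10) =
        3 * (d : ℝ) ^ (a / 10) + |2 * C'| * (d : ℝ) ^ (a / 10) +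
          (2 + |4 + ρ1|) * (d : ℝ) ^ (a / 10) + C * (d : ℝ) ^ (a / 10) := by ring
      linarith
    exact_mod_cast h1
  · rw [hsp]
    have h2 := hmul |2 * C'| habs1
    have h3 := hmul (2 + |4 + ρ1|) (by linarith)
    have h4 := hmul C hC0.le
    have e : (3 + |2 * C'| + (2 + |4 + ρ1|) + C) * (d : ℝ) ^ (a / 10) =
      3 * (d : ℝ) ^ (a / 10) + |2 * C'| * (d : ℝ) ^ (a / 10) +
        (2 + |4 + ρ1|) * (d : ℝ) ^ (a / 10) + C * (d : ℝ) ^ (a / 10) := by ring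
    linarith
  · have h2 := hmul |2 * C'| habs1
    have h3 := hmul (2 + |4 + ρ1|) (by linarith)
    have h4 := hmul C hC0.le
    have e : (3 + |2 * C'| + (2 + |4 + ρ1|) + C) * (d : ℝ) ^ (a / 10) =
      3 * (d : ℝ) ^ (a / 10) + |2 * C'| * (d : ℝ) ^ (a / 10) +
        (2 + |4 + ρ1|) * (d : ℝ) ^ (a / 10) + C * (d : ℝ) ^ (a / 10) := by ring
    linarith
  · rw [hsp]
    have h2 := hmul |2 * C'| habs1
    have h3 := hmul |4 + ρ1| habs2
    have h4 := hmul C hC0.le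
    have e : (3 + |2 * C'| + (2 + |4 + ρ1|) + C) * (d : ℝ) ^ (a / 10) =
      3 * (d : ℝ) ^ (a / 10) + |2 * C'| * (d : ℝ) ^ (a / 10) +
        2 * (d : ℝ) ^ (a / 10) + |4 + ρ1| * (d : ℝ) ^ (a / 10) + C * (d : ℝ) ^ (a / 10) := by ring
    linarith
  · have h2 := hmul |2 * C'| habs1
    have h3 := hmul (2 + |4 + ρ1|) (by linarith)
    have h4 := hmul C hC0.le
    have e : (3 + |2 * C'| + (2 + |4 + ρ1|) + C) * (d : ℝ) ^ (a / 10) =
      3 * (d : ℝ) ^ (a / 10) + |2 * C'| * (d : ℝ) ^ (a / 10) +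
        (2 + |4 + ρ1|) * (d : ℝ) ^ (a / 10) + C * (d : ℝ) ^ (a / 10) := by ring
    linarith
  · -- `⌈d ^ (a / 5)⌉ ≤ d ^ ε₀`
    have h1 := Nat.ceil_lt_add_one (a := (d : ℝ) ^ (a / 5)) (by positivity)
    have h2 : (d : ℝ) ^ (a / 5) + 1 ≤ (d : ℝ) ^ a := by
      have h3 : (d : ℝ) ^ a = (d : ℝ) ^ (a / 5) * (d : ℝ) ^ (4 * a / 5) := by
        rw [← Real.rpow_add hdp]
        congr 1
        ring
      have h4 : (2 : ℝ) ≤ (d : ℝ) ^ (4 * a / 5) := by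
        refine f2.trans (Real.rpow_le_rpow_of_exponent_le hd1 ?_)
        linarith
      have h6 : 1 ≤ (d : ℝ) ^ (a / 5) := Real.one_le_rpow hd1 (by positivity)
      rw [h3]
      nlinarith
    have h3 : (d : ℝ) ^ a ≤ (d : ℝ) ^ ε₀ := Real.rpow_le_rpow_of_exponent_le hd1 haε
    linarith
  · have h3 : (d : ℝ) ^ (a / 30) * (d : ℝ) ^ (a / 30) ≤ (d : ℝ) ^ ε₀ := by
      rw [← Real.rpow_add hdp]
      refine Real.rpow_le_rpow_of_exponent_le hd1 ?_
      linarith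
    have h4 : 2 * (d : ℝ) ^ (a / 30) ≤ (d : ℝ) ^ (a / 30) * (d : ℝ) ^ (a / 30) :=
      mul_le_mul_of_nonneg_right f2 (by positivity)
    linarith
  · have h1 : (d : ℝ) ^ (a / 3) * (d : ℝ) ^ (1 - a / 3) = d := by
      rw [← Real.rpow_add hdp]
      norm_num
    calc C * (d : ℝ) ^ (1 - a / 3) ≤ (d : ℝ) ^ (a / 3) * (d : ℝ) ^ (1 - a / 3) :=
          mul_le_mul_of_nonneg_right f3 (by positivity)
      _ = d := h1
  · intro D hD
    have h1 : (2 : ℝ) ^ (3 / a) ≤ D := by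
      have h2 : C * (2 : ℝ) ^ (3 / a) ≤ C * D := f4.trans hD
      exact le_of_mul_le_mul_left h2 hC0
    have h2 : (1 : ℝ) ≤ (2 : ℝ) ^ (3 / a) := Real.one_le_rpow (by norm_num) (by positivity)
    have hD1 : (1 : ℝ) ≤ D := h2.trans h1
    have hDp : (0 : ℝ) < D := by linarith
    refine ⟨by exact_mod_cast hD1, ?_⟩
    have h3 : (2 : ℝ) ≤ (D : ℝ) ^ (a / 3) := by
      have h4 : ((2 : ℝ) ^ (3 / a)) ^ (a / 3) = 2 := by
        rw [← Real.rpow_mul (by norm_num)]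
        have : 3 / a * (a / 3) = 1 := by
          field_simp
        rw [this, Real.rpow_one]
      rw [← h4]
      exact Real.rpow_le_rpow (by positivity) h1 (by positivity)
    have h4 : (D : ℝ) ^ (a / 3) * (D : ℝ) ^ (1 - a / 3) = D := by
      rw [← Real.rpow_add hDp]
      norm_num
    calc 2 * (D : ℝ) ^ (1 - a / 3) ≤ (D : ℝ) ^ (a / 3) * (D : ℝ) ^ (1 - a / 3) :=
          mul_le_mul_of_nonneg_right h3 (by positivity)
      _ = D := h4
  · intro L r hL hr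
    have hrd : (r : ℝ) ≤ d := by exact_mod_cast hr
    have hL0 : (0 : ℝ) ≤ L := Nat.cast_nonneg L
    have hr0 : (0 : ℝ) ≤ r := Nat.cast_nonneg r
    have hlD : 0 ≤ Real.log d := Real.log_nonneg hd1
    have hDx : (d : ℝ) = Real.exp (Real.log d) := by rw [Real.exp_log hdp]
    obtain ⟨x, hx⟩ : ∃ x, x = (d : ℝ) ^ (a / 30) := ⟨_, rfl⟩
    rw [← hx] at hL
    have hx1 : 1 ≤ x := by rw [hx]; linarith
    have h1 : (r : ℝ) + 2 ≤ Real.exp (2 * Real.log d) := by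
      have h5 : Real.exp (2 * Real.log d) = d * d := by
        rw [two_mul, Real.exp_add, ← hDx]
      rw [h5]
      nlinarith
    have h2 : ((r : ℝ) + 2) ^ (4 * L) ≤ Real.exp (8 * x * Real.log d) := by
      calc ((r : ℝ) + 2) ^ (4 * L) ≤ Real.exp (2 * Real.log d) ^ (4 * L) :=
            pow_le_pow_left₀ (by linarith) h1 _
        _ = Real.exp (((4 * L : ℕ) : ℝ) * (2 * Real.log d)) := by rw [← Real.exp_nat_mul]
        _ ≤ Real.exp (8 * x * Real.log d) := by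
            apply Real.exp_le_exp.2
            push_cast
            nlinarith
    have h3 : 2 * (L : ℝ) + 1 ≤ Real.exp (2 * x) := by
      have h4 := Real.add_one_le_exp (2 * x)
      linarith
    have h4 : C = Real.exp (Real.log C) := by rw [Real.exp_log hC0]
    have h6 : (d : ℝ) ^ (a / 20) = x * (d : ℝ) ^ (a / 60) := by
      rw [hx, ← Real.rpow_add hdp]
      congr 1
      ring
    have hlC : 0 ≤ Real.log C := Real.log_nonneg hC
    unfold MP_db9399_cg.sx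
    calc C * ((2 * (L : ℝ) + 1) * ((r : ℝ) + 2) ^ (4 * L))
        ≤ Real.exp (Real.log C) * (Real.exp (2 * x) * Real.exp (8 * x * Real.log d)) := by
          rw [← h4]
          exact mul_le_mul_of_nonneg_left (mul_le_mul h3 h2 (by positivity) (by positivity)) hC0.le
      _ = Real.exp (Real.log C + 2 * x + 8 * x * Real.log d) := by
          rw [← Real.exp_add, ← Real.exp_add]
          congr 1
          ring
      _ ≤ Real.exp ((d : ℝ) ^ (a / 20)) := by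
          apply Real.exp_le_exp.2
          rw [h6]
          have h7 : Real.log C + 2 + 8 * Real.log d ≤ (d : ℝ) ^ (a / 60) := by linarith
          calc Real.log C + 2 * x + 8 * x * Real.log d
              ≤ x * (Real.log C + 2 + 8 * Real.log d) := by nlinarith
            _ ≤ x * (d : ℝ) ^ (a / 60) := mul_le_mul_of_nonneg_left h7 (by linarith)
  · intro L r hL hr
    have hda : (1 : ℝ) ≤ (d : ℝ) ^ (1 - a) := Real.one_le_rpow hd1 (by linarith)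
    have hr0 : (0 : ℝ) < r := by linarith
    have h1 : ((r : ℝ) + 2) / r ≤ Real.exp (2 / r) := by
      have h2 : ((r : ℝ) + 2) / r = 2 / r + 1 := by
        field_simp
        ring
      rw [h2]
      exact Real.add_one_le_exp _
    have h3 : 8 * (d : ℝ) ^ (a / 30) ≤ Real.log 2 * (d : ℝ) ^ (1 - a) := by
      have h4 : (d : ℝ) ^ (1 - a) = (d : ℝ) ^ (a / 30) * (d : ℝ) ^ (1 - a - a / 30) := by
        rw [← Real.rpow_add hdp]
        congr 1
        ring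
      have h5 : 8 / Real.log 2 ≤ (d : ℝ) ^ (1 - a - a / 30) := by
        have h6 : (d : ℝ) ^ (1 / 8 : ℝ) ≤ (d : ℝ) ^ (1 - a - a / 30) := by
          refine Real.rpow_le_rpow_of_exponent_le hd1 ?_
          linarith
        linarith
      rw [div_le_iff₀ hl2] at h5
      rw [h4]
      have h7 : 0 < (d : ℝ) ^ (a / 30) := by positivity
      nlinarith
    calc (((r : ℝ) + 2) / r) ^ (4 * L) ≤ Real.exp (2 / r) ^ (4 * L) :=
          pow_le_pow_left₀ (by positivity) h1 _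
      _ = Real.exp (((4 * L : ℕ) : ℝ) * (2 / r)) := by rw [← Real.exp_nat_mul]
      _ ≤ Real.exp (Real.log 2) := by
          apply Real.exp_le_exp.2
          rw [← mul_div_assoc, div_le_iff₀ hr0]
          calc ((4 * L : ℕ) : ℝ) * 2 ≤ 8 * (d : ℝ) ^ (a / 30) := by
                push_cast
                linarith
            _ ≤ Real.log 2 * (d : ℝ) ^ (1 - a) := h3
            _ ≤ Real.log 2 * r := mul_le_mul_of_nonneg_left hr hl2.le
      _ = 2 := Real.exp_log (by norm_num)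
  · intro r hr
    have hda : (1 : ℝ) ≤ (d : ℝ) ^ (1 - a) := Real.one_le_rpow hd1 (by linarith)
    have hr0 : (0 : ℝ) < r := by linarith
    rw [hsp, div_le_iff₀ hr0]
    have h1 : 8 * (d : ℝ) ^ (a / 10) ≤ (d : ℝ) ^ (-(3 / 4) : ℝ) * (d : ℝ) ^ (1 - a) := by
      rw [← Real.rpow_add hdp]
      have h4 : (d : ℝ) ^ (-(3 / 4) + (1 - a)) = (d : ℝ) ^ (a / 10) *
          (d : ℝ) ^ (-(3 / 4) + (1 - a) - a / 10) := by
        rw [← Real.rpow_add hdp]
        congr 1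
        ring
      have h5 : 8 ≤ (d : ℝ) ^ (-(3 / 4) + (1 - a) - a / 10) := by
        have h6 : (d : ℝ) ^ (1 / 8 : ℝ) ≤ (d : ℝ) ^ (-(3 / 4) + (1 - a) - a / 10) := by
          refine Real.rpow_le_rpow_of_exponent_le hd1 ?_
          linarith
        have h7 : 0 < 8 / Real.log 2 := by positivity
        linarith
      rw [h4]
      have h7 : 0 < (d : ℝ) ^ (a / 10) := by positivity
      nlinarith
    exact h1.trans (mul_le_mul_of_nonneg_left hr (by positivity))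
  · rw [Real.rpow_neg hdp.le]
    have h1 : 1 / ρ ≤ (d : ℝ) ^ ε₀ := by
      have : 0 < 1 / ε := by positivity
      linarith
    rw [inv_le_comm₀ (by positivity) hρ]
    rwa [one_div] at h1
  · rw [Real.rpow_neg hdp.le]
    have h1 : 1 / ε ≤ (d : ℝ) ^ ε₀ := by
      have : 0 < 1 / ρ := by positivity
      linarith
    rw [inv_le_comm₀ (by positivity) hε]
    rwa [one_div] at h1

end Pool.Agent.Work.MP_db9399_ox
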