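import Pool.Agent.Work.MP_db9399_ox.All
import Pool.Agent.Work.MP_db9399_ox.NumC

/-! # OUTX, block OXC: labels, `Km`, engine (helper72) -/

set_option autoImplicit false
set_option linter.unusedSectionVars false

namespace Pool.Agent.Work.MP_db9399_ox

open Finset Classical
open Pool.Agent.Work.MP_db9399_all (nb)
open Pool.Agent.Work.MP_db9399_cg (cdg pk sx sp)
open Pool.Agent.Work.MP_db9399_sg
open Pool.Agent.Work.MP_db9399_en (HH wlk resE resO Wts)

universe u

section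

variable {V I I' J : Type u} [Fintype V] [Fintype I] [Fintype I'] [Fintype J] {P : ℕ}
  {cl : Fin P → J} {E : SimpleGraph V} {H Gh S : J → SimpleGraph V} {O W U K : Finset V}
  {A Ex Exc : J → Finset V} {nd : J → V → Option (I × Bool)} {pr : I → I'} {d : ℕ}
  {D r : J → ℕ} {a a' a1 MS g δ β c1 C C' C1 ρ0 ε1 ρ1 gS δS βS c1S ρS ρL MSS C2 e2 : ℝ} {L : ℕ}
  {N0 N : Fin P → V → V} {c : V → Option (Fin P)}

theorem tkN_O {b : Fin P} {x : V} (h : x ∈ tkN O c N b) : x ∈ O := by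
  unfold tkN at h
  exact (mem_filter.1 h).1

theorem tksN_O {lab : Fin P → V → Bool} {b : Fin P} {s : Bool} {x : V}
    (h : x ∈ tksN O c N lab b s) : x ∈ O := by
  unfold tksN at h
  exact tkN_O (mem_filter.1 h).1

/-- the test of the class `t.1` at the vertex `t.2` -/
noncomputable def pt (S : J → SimpleGraph V) (r : J → ℕ) (L : ℕ) (O : Finset V) (t : J × V)
    (x : V) : ℝ := if x ∈ O then k0 (S t.1) (r t.1) L t.2 x else 0

noncomputable def qt (S : J → SimpleGraph V) (r : J → ℕ) (L : ℕ) (O : Finset V) (t : J × V)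
    (x : V) : ℝ := if x ∈ O then k1 (S t.1) (r t.1) L t.2 x else 0

theorem pt_O {t : J × V} {x : V} (h : x ∈ O) : pt S r L O t x = k0 (S t.1) (r t.1) L t.2 x :=
  if_pos h

theorem qt_O {t : J × V} {x : V} (h : x ∈ O) : qt S r L O t x = k1 (S t.1) (r t.1) L t.2 x :=
  if_pos h

theorem pt_n {t : J × V} {x : V} (h : x ∉ O) : pt S r L O t x = 0 := if_neg h

theorem qt_n {t : J × V} {x : V} (h : x ∉ O) : qt S r L O t x = 0 := if_neg h

theorem pt_nonneg (t : J × V) (x : V) : 0 ≤ pt S r L O t x := by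
  unfold pt
  split_ifs
  · exact k0_nonneg _ _ _ _ _
  · exact le_rfl

theorem qt_nonneg (t : J × V) (x : V) : 0 ≤ qt S r L O t x := by
  unfold qt
  split_ifs
  · exact k1_nonneg _ _ _ _ _
  · exact le_rfl

theorem pq_sum (t : J × V) (T : Finset V) (hT : T ⊆ O) :
    ∑ x ∈ T, (pt S r L O t x + qt S r L O t x) =
      ∑ x ∈ T, (k0 (S t.1) (r t.1) L t.2 x + k1 (S t.1) (r t.1) L t.2 x) :=
  Finset.sum_congr rfl fun x hx => by rw [pt_O (hT hx), qt_O (hT hx)]

theorem pq_univ (t : J × V) (F : ℝ → V → ℝ) (hF : ∀ x, F 0 x = 0) :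
    ∑ x, F (pt S r L O t x + qt S r L O t x) x =
      ∑ x ∈ O, F (k0 (S t.1) (r t.1) L t.2 x + k1 (S t.1) (r t.1) L t.2 x) x := by
  rw [← Finset.sum_subset (Finset.subset_univ O)]
  · exact Finset.sum_congr rfl fun x hx => by rw [pt_O hx, qt_O hx]
  · intro x _ hx
    rw [pt_n hx, qt_n hx, add_zero, hF]

/-- the tests of the kernels -/
theorem tstN (hCk : 1 ≤ C) (Ck eK e ε₀ ρ ε : ℝ) (hJ : (Fintype.card J : ℝ) ≤ C)
    (hd : ∀ j, 1 ≤ D j ∧ D j ≤ d ∧ (d : ℝ) ≤ C * D j) (hr1 : ∀ j, 1 ≤ r j) (hrd : ∀ j, r j ≤ d)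
    (hi : ∀ j v, (nb (S j) v).card ≤ r j + 2)
    (hKrn : ∀ j, Krn (S j) O (r j) L (D j) a' C1 e) (hC1 : 0 ≤ C1) (he : 0 ≤ e) (h1 : C * C1 ≤ Ck)
    (h2 : C * e ≤ eK) (hn : NumC a ε₀ C C' ρ1 ρ ε d) (hL : (L : ℝ) ≤ (d : ℝ) ^ (a / 30)) :
    TstN O (fun t x => pt S r L O t x + qt S r L O t x) d a Ck eK := by
  have hdp : (0 : ℝ) < d := by linarith [hn.d1]
  have hC0 : 0 < C := by linarith
  have hDp : ∀ j, (0 : ℝ) < D j := fun j => by exact_mod_cast (hd j).1
  have hdiv : ∀ j (y : ℝ), 0 ≤ y → y / D j ≤ C * y / d := by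
    intro j y hy
    rw [div_le_div_iff₀ (hDp j) hdp]
    have h3 := mul_le_mul_of_nonneg_left (hd j).2.2 hy
    calc y * d ≤ y * (C * D j) := h3
      _ = C * y * D j := by ring
  have hsx : ∀ j, C * ((2 * (L : ℝ) + 1) * ((r j : ℝ) + 2) ^ (4 * L)) ≤ sx d a := fun j =>
    hn.sx L (r j) hL (hrd j)
  have hcard : ∀ j v, ((univ.filter fun x =>
      k0 (S j) (r j) L v x + k1 (S j) (r j) L v x ≠ 0).card : ℝ) ≤
      (2 * (L : ℝ) + 1) * ((r j : ℝ) + 2) ^ (4 * L) := by
    intro j v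
    have h3 := supp_avg (S j) (r j) L (r j + 2) (by omega) (hi j) v
    have h4 : (((2 * L + 1) * (r j + 2) ^ (4 * L) : ℕ) : ℝ) =
        (2 * (L : ℝ) + 1) * ((r j : ℝ) + 2) ^ (4 * L) := by
      push_cast
      ring
    rw [← h4]
    exact_mod_cast h3
  refine ⟨?_, ?_, ?_, ?_, ?_, ?_⟩
  · intro t x hx
    rw [pt_n hx, qt_n hx, add_zero]
  · intro t x
    by_cases hx : x ∈ O
    · rw [pt_O hx, qt_O hx, abs_of_nonneg (add_nonneg (k0_nonneg _ _ _ _ _) (k1_nonneg _ _ _ _ _))]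
      refine ((hKrn t.1).sup t.2 x).trans ((hdiv t.1 C1 hC1).trans ?_)
      exact div_le_div_of_nonneg_right h1 hdp.le
    · rw [pt_n hx, qt_n hx, add_zero, abs_zero]
      have : 0 ≤ C * C1 := by positivity
      exact div_nonneg (this.trans h1) hdp.le
  · intro t
    rw [pq_univ t (fun y _ => y ^ 2) (fun x => by norm_num)]
    refine ((hKrn t.1).l2 t.2).trans ((hdiv t.1 e he).trans ?_)
    exact div_le_div_of_nonneg_right h2 hdp.le
  · intro t
    rw [pq_univ t (fun y _ => |y|) (fun x => by norm_num)]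
    refine le_trans ?_ ((hKrn t.1).l1 t.2)
    refine le_trans (le_of_eq (Finset.sum_congr rfl fun x _ => abs_of_nonneg
      (add_nonneg (k0_nonneg _ _ _ _ _) (k1_nonneg _ _ _ _ _)))) ?_
    exact Finset.sum_le_sum_of_subset_of_nonneg (Finset.subset_univ O) fun x _ _ =>
      add_nonneg (k0_nonneg _ _ _ _ _) (k1_nonneg _ _ _ _ _)
  · intro t
    have h3 : (univ.filter fun x => pt S r L O t x + qt S r L O t x ≠ 0) ⊆
        univ.filter fun x => k0 (S t.1) (r t.1) L t.2 x + k1 (S t.1) (r t.1) L t.2 x ≠ 0 := by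
      intro x hx
      rw [mem_filter] at hx ⊢
      refine ⟨mem_univ _, ?_⟩
      by_cases hxO : x ∈ O
      · rw [pt_O hxO, qt_O hxO] at hx
        exact hx.2
      · rw [pt_n hxO, qt_n hxO, add_zero] at hx
        exact absurd rfl hx.2
    have h4 : ((univ.filter fun x => pt S r L O t x + qt S r L O t x ≠ 0).card : ℝ) ≤
        (univ.filter fun x => k0 (S t.1) (r t.1) L t.2 x + k1 (S t.1) (r t.1) L t.2 x ≠ 0).card := by
      exact_mod_cast card_le_card h3
    have h5 : 0 ≤ (2 * (L : ℝ) + 1) * ((r t.1 : ℝ) + 2) ^ (4 * L) := by positivity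
    calc ((univ.filter fun x => pt S r L O t x + qt S r L O t x ≠ 0).card : ℝ)
        ≤ (2 * (L : ℝ) + 1) * ((r t.1 : ℝ) + 2) ^ (4 * L) := h4.trans (hcard t.1 t.2)
      _ ≤ C * ((2 * (L : ℝ) + 1) * ((r t.1 : ℝ) + 2) ^ (4 * L)) :=
          le_mul_of_one_le_left h5 hCk
      _ ≤ sx d a := hsx t.1
  · intro x
    by_cases hxO : x ∈ O
    · have h3 : (univ.filter fun t : J × V => pt S r L O t x + qt S r L O t x ≠ 0) ⊆
          (univ : Finset J).biUnion fun j => (univ.filter fun v =>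
            k0 (S j) (r j) L x v + k1 (S j) (r j) L x v ≠ 0).image fun v => (j, v) := by
        intro t ht
        rw [mem_filter] at ht
        rw [mem_biUnion]
        refine ⟨t.1, mem_univ _, ?_⟩
        rw [mem_image]
        refine ⟨t.2, ?_, rfl⟩
        rw [mem_filter]
        refine ⟨mem_univ _, ?_⟩
        rw [k_symm (S t.1) (r t.1) L (hr1 t.1)]
        rw [pt_O hxO, qt_O hxO] at ht
        exact ht.2
      have h4 := (card_le_card h3).trans card_biUnion_le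
      have h5 : ((univ.filter fun t : J × V => pt S r L O t x + qt S r L O t x ≠ 0).card : ℝ) ≤
          ∑ j : J, (((univ.filter fun v =>
            k0 (S j) (r j) L x v + k1 (S j) (r j) L x v ≠ 0).image fun v => (j, v)).card : ℝ) := by
        exact_mod_cast h4
      refine h5.trans ?_
      have hsx0 : 0 ≤ sx d a := by
        unfold MP_db9399_cg.sx
        exact (Real.exp_pos _).le
      calc ∑ j : J, (((univ.filter fun v =>
            k0 (S j) (r j) L x v + k1 (S j) (r j) L x v ≠ 0).image fun v => (j, v)).card : ℝ)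
          ≤ ∑ _j : J, sx d a / C := by
            refine Finset.sum_le_sum fun j _ => ?_
            rw [le_div_iff₀ hC0]
            have h6 : (((univ.filter fun v => k0 (S j) (r j) L x v + k1 (S j) (r j) L x v ≠ 0).image
                fun v => (j, v)).card : ℝ) ≤ (2 * (L : ℝ) + 1) * ((r j : ℝ) + 2) ^ (4 * L) := by
              refine le_trans ?_ (hcard j x)
              exact_mod_cast card_image_le
            calc _ ≤ ((2 * (L : ℝ) + 1) * ((r j : ℝ) + 2) ^ (4 * L)) * C :=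
                  mul_le_mul_of_nonneg_right h6 hC0.le
              _ = C * ((2 * (L : ℝ) + 1) * ((r j : ℝ) + 2) ^ (4 * L)) := by ring
              _ ≤ sx d a := hsx j
        _ = (Fintype.card J : ℝ) * (sx d a / C) := by
            rw [Finset.sum_const, nsmul_eq_mul, card_univ]
        _ ≤ C * (sx d a / C) := mul_le_mul_of_nonneg_right hJ (by positivity)
        _ = sx d a := by field_simp
    · have h3 : (univ.filter fun t : J × V => pt S r L O t x + qt S r L O t x ≠ 0) = ∅ := by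
        refine Finset.filter_eq_empty_iff.2 fun t _ => ?_
        rw [pt_n hxO, qt_n hxO, add_zero]
        simp
      have hsx0 : 0 ≤ sx d a := by
        unfold MP_db9399_cg.sx
        exact (Real.exp_pos _).le
      rw [h3, card_empty]
      simpa using hsx0

end

theorem stmt_OXC (hK : Stmt_KMLN.{u}) (hE : Stmt_ENGN.{u}) : Stmt_OXC.{u} := by
  obtain ⟨ε₀, c₀, C₀, dE, hε₀, hε₁, hc₀, hC₀, hEng⟩ := hE
  refine ⟨ε₀, C₀, hε₀, hε₁, hC₀, ?_⟩
  intro a a1 C C1 ε ha haa ha1 haε hC4 hC1 hε hεle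
  have ha1p : 0 < a1 := ha.trans_le haa
  have hC0 : 0 < C := by linarith
  have hC1' : 1 ≤ C := by linarith
  obtain ⟨Ck, hCk⟩ : ∃ Ck, Ck = max C (C * C1) := ⟨_, rfl⟩
  have hCkC : C ≤ Ck := by rw [hCk]; exact le_max_left _ _
  have hCkC1 : C * C1 ≤ Ck := by rw [hCk]; exact le_max_right _ _
  obtain ⟨ρ, hρ, hρ1, hKml⟩ := hK a1 Ck ha1p ha1 (by linarith)
  obtain ⟨η, hη⟩ : ∃ η, η = c₀ * ρ * ε / (3 * C) := ⟨_, rfl⟩
  have hη0 : 0 < η := by rw [hη]; positivity
  obtain ⟨eK, dK, heK, hKml⟩ := hKml η hη0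
  refine ⟨eK / C, min 1 η, by positivity, lt_min one_pos hη0, min_le_left _ _, ?_⟩
  intro MS δ β c1 C' C2 ρ0 ρ2 hρ0
  obtain ⟨d1, hd1⟩ := numC a1 ε₀ C C' (1000 * C' ^ 2 * ρ0) ρ ε ha1p ha1 haε hC1' hρ hε
  obtain ⟨d2, hd2⟩ := numC a ε₀ C C' (1000 * C' ^ 2 * ρ0) ρ ε ha (haa.trans ha1) (haa.trans haε)
    hC1' hρ hε
  refine ⟨max (max dE dK) (max d1 d2), ?_⟩
  intro V I I' J _ _ _ _ P cl E H Gh S O W U K A Ex Exc nd pr d D r g L N0 N c hd hCl hP hPd hdE
    hEW hHE hout hL2 hL hR hKrn h0 hN hc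
  have hdE' : dE ≤ d := le_trans (by simp) hd
  have hdK : dK ≤ d := le_trans (by simp) hd
  have hn := hd1 d (le_trans (by simp) hd)
  have hn0 := hd2 d (le_trans (by simp) hd)
  have hd1' := hn.d1
  have hdp : (0 : ℝ) < d := by linarith
  have hrd1 : ∀ j, (d : ℝ) ^ (1 - a1) ≤ r j := fun j =>
    (Real.rpow_le_rpow_of_exponent_le hd1' (by linarith)).trans (hCl.rd j)
  have hL1 : (L : ℝ) ≤ (d : ℝ) ^ (a1 / 30) :=
    hL.trans (Real.rpow_le_rpow_of_exponent_le hd1' (by linarith))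
  have hD1 : ∀ j, 1 ≤ D j := fun j => (hn0.D2 (D j) (hCl.Dd j).2).1
  have hrle : ∀ j, r j ≤ d := by
    intro j
    have h1 := hP j
    have h2 := (hCl.Dd j).1
    omega
  have h2r : ∀ j, 2 * r j ≤ D j := by
    intro j
    have h1 := (hn0.D2 (D j) (hCl.Dd j).2).2
    have h2 := (hCl.rr j).2.2
    have h3 : 2 * (r j : ℝ) ≤ D j := by linarith
    exact_mod_cast h3
  have hr1 : ∀ j, 1 ≤ r j := by
    intro j
    have h1 := hCl.rd j
    have h2 : (1 : ℝ) ≤ (d : ℝ) ^ (1 - a) := Real.one_le_rpow hd1' (by linarith)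
    have h3 : (1 : ℝ) ≤ r j := h2.trans h1
    exact_mod_cast h3
  have hJd : ∑ j, ((r j : ℝ) + 2) ≤ d := by
    calc ∑ j, ((r j : ℝ) + 2) ≤ ∑ _j : J, (d : ℝ) ^ (1 - a / 3) := by
          refine Finset.sum_le_sum fun j _ => ((hCl.rr j).2.2).trans ?_
          refine Real.rpow_le_rpow (Nat.cast_nonneg _) ?_ (by linarith)
          exact_mod_cast (hCl.Dd j).1
      _ = (Fintype.card J : ℝ) * (d : ℝ) ^ (1 - a / 3) := by
          rw [Finset.sum_const, nsmul_eq_mul, card_univ]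
      _ ≤ C * (d : ℝ) ^ (1 - a / 3) :=
          mul_le_mul_of_nonneg_right hCl.Jc (Real.rpow_nonneg hdp.le _)
      _ ≤ d := hn0.r3
  have hspp : 0 ≤ sp d a1 := Real.rpow_nonneg hdp.le _
  have hSG : ∀ j, S j ≤ Gh j := fun j => (hR j).sub
  have hAll := allN (T0 := ⌈(d : ℝ) ^ (a1 / 5)⌉₊) hCl hP hPd hdE hEW hHE hR h0 hN hc hD1 h2r
    (by positivity) ⌈(d : ℝ) ^ (a1 / 5)⌉₊ hn.k3 hJd hn.ksp hn.kC' hn.kT hspp
  have hOwn := hc.own
  have hGd : ∀ v, ((nb (GG E O S N) v).card : ℝ) ≤ Ck * d := by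
    intro v
    have h1 := GG_card E O S N v
    have h3 := hdE v
    have h4 : ((∑ j, (nb (S j) v).card : ℕ) : ℝ) ≤ d := by
      push_cast
      refine le_trans (Finset.sum_le_sum fun j _ => ?_) hJd
      exact_mod_cast (hR j).cl.hi v
    have h5 : ∑ j, (nb (S j) v).card ≤ d := by exact_mod_cast h4
    have h6 : (nb (GG E O S N) v).card ≤ 3 * d := by omega
    have h7 : ((nb (GG E O S N) v).card : ℝ) ≤ 3 * d := by exact_mod_cast h6
    nlinarith
  have hleft : ∀ v, (((nb (GG E O S N) v).filter fun w => (¬ ∃ b, N b v = w) ∧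
      ¬ ∃ j, (S j).Adj v w).card : ℝ) ≤ Ck := by
    intro v
    have hsub : ((nb (GG E O S N) v).filter fun w => (¬ ∃ b, N b v = w) ∧
        ¬ ∃ j, (S j).Adj v w) ⊆ (nb E v ∩ O).filter fun w => ∀ j, ¬ (H j).Adj v w := by
      intro w hw
      rw [mem_filter, mem_nb'] at hw
      obtain ⟨hG, hn1, hn2⟩ := hw
      rcases hG.2 with ⟨hE, -, hwO⟩ | h | ⟨b, h, -⟩
      · rw [mem_filter, mem_inter, mem_nb']
        refine ⟨⟨hE, hwO⟩, fun j hj => ?_⟩
        obtain ⟨b, -, hb⟩ := h0.co j v w hj (fun h => hn2 ⟨j, h⟩)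
        refine hn1 ⟨b, ?_⟩
        rw [hN.ext b v (by rw [hb]; exact hG.1.symm), hb]
      · exact absurd h hn2
      · exact absurd ⟨b, h⟩ hn1
    by_cases hv : v ∈ O
    · have h1 : (((nb (GG E O S N) v).filter fun w => (¬ ∃ b, N b v = w) ∧
          ¬ ∃ j, (S j).Adj v w).card : ℝ) ≤
          ((nb E v ∩ O).filter fun w => ∀ j, ¬ (H j).Adj v w).card := by
        exact_mod_cast card_le_card hsub
      exact h1.trans ((hout v hv).trans hCkC)
    · have h1 : ((nb (GG E O S N) v).filter fun w => (¬ ∃ b, N b v = w) ∧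
          ¬ ∃ j, (S j).Adj v w) = ∅ := by
        refine Finset.filter_eq_empty_iff.2 fun w hw => ?_
        rw [mem_nb'] at hw
        rcases hw.2 with ⟨-, h, -⟩ | h | ⟨b, h, -⟩
        · exact absurd h hv
        · exact fun h' => h'.2 h
        · exact fun h' => h'.1 ⟨b, h⟩
      rw [h1, card_empty]
      push_cast
      linarith
  have hTst := tstN (S := S) (O := O) (L := L) (D := D) hC1' Ck eK (eK / C) ε₀ ρ ε hCl.Jc
    (fun j => ⟨hD1 j, hCl.Dd j⟩) hr1 hrle (fun j => (hR j).cl.hi) hKrn hC1.le (by positivity)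
    hCkC1 (by rw [mul_div_cancel₀ _ hC0.ne']) hn hL1
  have hmlt : ∀ t : J × V, ∑ x, (pt S r L O t x + qt S r L O t x) ^ 2 *
      ((univ.filter fun b => cl b = t.1 ∧ x ∈ tkN O c N b).card : ℝ) ≤ eK / d := by
    intro t
    rw [pq_univ t (fun y x => y ^ 2 * ((univ.filter fun b => cl b = t.1 ∧
      x ∈ tkN O c N b).card : ℝ)) (fun x => by norm_num)]
    refine (hc.mlt t.1 t.2).trans (div_le_div_of_nonneg_right ?_ hdp.le)
    exact div_le_self heK.le hC1'
  have htok : ∀ (t : J × V) (b : Fin P), cl b = t.1 →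
      ∑ x ∈ tkN O c N b, (pt S r L O t x + qt S r L O t x) ≤ (d : ℝ) ^ (-(3 / 4) : ℝ) := by
    intro t b hb
    rw [pq_sum t _ (fun x hx => tkN_O hx)]
    have h1 := mass_avg (S t.1) (r t.1) L (hr1 t.1) (by omega) (hR t.1).cl.hi (tkN O c N b)
      (2 * sp d a1) (fun y => by
        have h2 := hOwn.t2 b y
        rw [hb] at h2
        refine le_trans (le_of_eq ?_) h2
        congr 2) (hn.ms L (r t.1) hL1 (hrd1 t.1)) t.2
    refine h1.trans (le_trans (le_of_eq ?_) (hn.tk (r t.1) (hrd1 t.1)))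
    ring
  obtain ⟨Km, lab, hKm, hlab, -⟩ := hKml P (GG E O S N) S cl O A (nnj nd) d ⌈(d : ℝ) ^ (a1 / 5)⌉₊
    ⌈(d : ℝ) ^ (a1 / 5)⌉₊ r Prod.fst (pt S r L O) (qt S r L O) N c K hdK hAll hOwn
    (hCl.Jc.trans hCkC) hGd hrd1 (fun j => (hR j).K1) hleft
    (fun j v hv hvK => by
      have h1 := (hR j).K2 v hv hvK
      have h2 : (0 : ℝ) ≤ r j := Nat.cast_nonneg _
      linarith)
    (fun j v hv => by
      have h1 := (hR j).K3 v hv
      have h2 : (0 : ℝ) ≤ r j := Nat.cast_nonneg _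
      have h3 : (nb (S j) v \ K) = (nb (S j) v).filter fun w => w ∉ K := by
        ext w
        rw [mem_sdiff, mem_filter]
      rw [h3] at h1
      linarith)
    (fun t x => pt_nonneg t x) (fun t x => qt_nonneg t x) hTst hmlt htok
  refine ⟨Km, ?_⟩
  have hW : ∀ j v, (Fintype.card J : ℝ) * ∑ b with cl b = j,
      resN (S j) (r j) (2 * L) (wt0 L) (wt1 L) O c N lab b v ≤ c₀ * ρ * ε := by
    intro j v
    have h1 : ∀ b, resN (S j) (r j) (2 * L) (wt0 L) (wt1 L) O c N lab b v = ∑ s : Bool,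
        |∑ x ∈ tksN O c N lab b s, pt S r L O (j, v) x -
          ∑ x ∈ tksN O c N lab b (!s), qt S r L O (j, v) x| := by
      intro b
      unfold resN
      refine Finset.sum_congr rfl fun s _ => ?_
      rw [resE_wt (S j) (r j) L (by omega), resO_wt, abs_zero, add_zero]
      congr 2
      · exact Finset.sum_congr rfl fun x hx => (pt_O (t := (j, v)) (tksN_O hx)).symm
      · exact Finset.sum_congr rfl fun x hx => (qt_O (t := (j, v)) (tksN_O hx)).symm
    simp_rw [h1]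
    have h2 := hlab (j, v)
    have h3 : ∑ b with cl b = j, |∑ x ∈ tkN O c N b, (pt S r L O (j, v) x - qt S r L O (j, v) x)| =
        ∑ b with cl b = j, |∑ x ∈ tkN O c N b,
          (k0 (S j) (r j) L v x - k1 (S j) (r j) L v x)| := by
      refine Finset.sum_congr rfl fun b _ => ?_
      congr 1
      refine Finset.sum_congr rfl fun x hx => ?_
      rw [pt_O (tkN_O hx), qt_O (tkN_O hx)]
    have h4 := hc.tst j v
    have h5 : ∑ b with cl b = j, |∑ x ∈ O.filter (fun x => N b x = x),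
        (k0 (S j) (r j) L v x - k1 (S j) (r j) L v x)| =
        ∑ b with cl b = j, |∑ x ∈ O.filter (fun x => N0 b x = x),
        (k0 (S j) (r j) L v x - k1 (S j) (r j) L v x)| := by
      refine Finset.sum_congr rfl fun b _ => ?_
      congr 1
      refine Finset.sum_congr ?_ fun _ _ => rfl
      ext x
      rw [mem_filter, mem_filter]
      constructor
      · rintro ⟨h, h'⟩
        rw [N_O hCl hN h] at h'
        exact ⟨h, h'⟩
      · rintro ⟨h, h'⟩
        rw [← N_O hCl hN h] at h'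
        exact ⟨h, h'⟩
    have h6 := h0.tst j v
    have h7 : min 1 η ≤ η := min_le_right _ _
    have h8 : ∑ b with cl b = j, ∑ s : Bool,
        |∑ x ∈ tksN O c N lab b s, pt S r L O (j, v) x -
          ∑ x ∈ tksN O c N lab b (!s), qt S r L O (j, v) x| ≤ 3 * η := by
      refine h2.trans ?_
      simp only
      rw [h3]
      linarith
    have h9 : 0 ≤ ∑ b with cl b = j, ∑ s : Bool,
        |∑ x ∈ tksN O c N lab b s, pt S r L O (j, v) x -
          ∑ x ∈ tksN O c N lab b (!s), qt S r L O (j, v) x| :=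
      Finset.sum_nonneg fun _ _ => Finset.sum_nonneg fun _ _ => abs_nonneg _
    calc _ ≤ C * (3 * η) := mul_le_mul hCl.Jc h8 h9 hC0.le
      _ = c₀ * ρ * ε := by
          rw [hη]
          field_simp
  have hk3 : (3 : ℝ) ≤ ⌈(d : ℝ) ^ (a1 / 5)⌉₊ := by exact_mod_cast hn.k3
  refine hEng P (GG E O S N) S cl O A (nnj nd) d ⌈(d : ℝ) ^ (a1 / 5)⌉₊ ⌈(d : ℝ) ^ (a1 / 5)⌉₊ (2 * L)
    r ρ ε (rcl N0) c N K Km lab (wt0 L) (wt1 L) hAll hKm (wt0_wts L (by omega)) (wt1_wts L hL2)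
    hdE' ?_ ?_ ?_ hρ1 hε hεle ?_ hn.kε hn.kε ?_ hn.eρ hn.eε hW
  · have := hn.k3
    omega
  · have h1 := hCl.Jc.trans hn.kC
    exact_mod_cast h1
  · have := hn.k3
    omega
  · intro j
    refine le_trans ?_ (hCl.rd j)
    exact Real.rpow_le_rpow_of_exponent_le hd1' (by linarith)
  · push_cast
    refine le_trans ?_ hn.xε
    linarith

end Pool.Agent.Work.MP_db9399_ox
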