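import Pool.Agent.Work.MP_db9399_ox.Wt

/-! # OUTX: the input of the engine, `AllN` (helper72) -/

set_option autoImplicit false
set_option linter.unusedSectionVars false

namespace Pool.Agent.Work.MP_db9399_ox

open Finset Classical
open Pool.Agent.Work.MP_db9399_all (nb)
open Pool.Agent.Work.MP_db9399_cg (cdg pk sx sp)
open Pool.Agent.Work.MP_db9399_sg
open Pool.Agent.Work.MP_db9399_en (HH wlk resE resO Wts)

universe u

theorem mem_nb' {V : Type u} [Fintype V] (G : SimpleGraph V) (v w : V) :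
    w ∈ nb G v ↔ G.Adj v w := by
  unfold nb
  simp

variable {V I I' J : Type u} [Fintype V] [Fintype I] [Fintype I'] [Fintype J] {P : ℕ}
  {cl : Fin P → J} {E : SimpleGraph V} {H Gh S : J → SimpleGraph V} {O W U K : Finset V}
  {A Ex Exc : J → Finset V} {nd : J → V → Option (I × Bool)} {pr : I → I'} {d : ℕ}
  {D r : J → ℕ} {a a1 MS g δ β c1 C C' ρ0 ε1 ρ1 gS δS βS c1S ρS ρL MSS C2 e2 : ℝ} {L : ℕ}
  {N0 N : Fin P → V → V} {c : V → Option (Fin P)}

theorem nd_O (hC : Cls H Gh O W A Ex nd pr d D r a MS g δ β c1 C C' ρ0) {x : V} (hx : x ∈ O)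
    (j : J) : nd j x = none :=
  ((hC.wld j).cov x ((hC.wld j).OA hx)).1 hx

theorem N_O (hC : Cls H Gh O W A Ex nd pr d D r a MS g δ β c1 C C' ρ0) (hN : Mt1 S cl W nd N0 N)
    {x : V} (hx : x ∈ O) (b : Fin P) : N b x = N0 b x := by
  by_cases h : N0 b x = x
  · by_cases h' : N b x = x
    · rw [h, h']
    · obtain ⟨i, s, h1, -⟩ := hN.fil b x h h'
      rw [nd_O hC hx] at h1
      cases h1
  · exact hN.ext b x h

theorem Hsym (hC : Cls H Gh O W A Ex nd pr d D r a MS g δ β c1 C C' ρ0) {j : J} {v w : V}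
    (h : (H j).Adj v w) : v ∈ W ∧ w ∈ W := ⟨hC.HW j v w h, hC.HW j w v h.symm⟩

theorem N_real (hC : Cls H Gh O W A Ex nd pr d D r a MS g δ β c1 C C' ρ0)
    (h0 : Mt0 H S cl O nd pr d D r a ε1 ρ1 L N0) (hN : Mt1 S cl W nd N0 N) {b : Fin P} {v : V}
    (h : N b v ≠ v) (hv : v ∈ W) (hw : N b v ∈ W) : (H (cl b)).Adj v (N b v) := by
  by_cases h' : N0 b v = v
  · obtain ⟨i, s, -, -, -, h1⟩ := hN.fil b v h' h
    rcases h1 with h1 | h1
    · exact absurd hv h1
    · exact absurd hw h1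
  · rw [hN.ext b v h']
    exact (h0.NG b v h').1

theorem S_real (hC : Cls H Gh O W A Ex nd pr d D r a MS g δ β c1 C C' ρ0)
    (hS : ∀ j, S j ≤ Gh j) {j : J} {v w : V} (h : (S j).Adj v w) (hv : v ∈ W) (hw : w ∈ W) :
    (H j).Adj v w := by
  by_contra hcon
  rcases hC.dum j v w (hS j h) hcon with h1 | h1
  · exact h1 hv
  · exact h1 hw

/-- an edge of a class has its ends in `A` -/
theorem N_A (hC : Cls H Gh O W A Ex nd pr d D r a MS g δ β c1 C C' ρ0)
    (h0 : Mt0 H S cl O nd pr d D r a ε1 ρ1 L N0) (hN : Mt1 S cl W nd N0 N) {b : Fin P} {v : V}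
    (h : N b v ≠ v) : v ∈ A (cl b) := by
  by_cases h' : N0 b v = v
  · obtain ⟨i, s, h1, -⟩ := hN.fil b v h' h
    exact (hC.wld (cl b)).nA v (by rw [h1]; simp)
  · exact (hC.wld (cl b)).sup v _ ((hC.wld (cl b)).HG (h0.NG b v h').1)

/-- reserves of different classes and matchings are disjoint -/
theorem NS_all (hC : Cls H Gh O W A Ex nd pr d D r a MS g δ β c1 C C' ρ0)
    (hS : ∀ j, S j ≤ Gh j)
    (h0 : Mt0 H S cl O nd pr d D r a ε1 ρ1 L N0) (hN : Mt1 S cl W nd N0 N) (b : Fin P) (v : V)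
    (j : J) : ¬ (S j).Adj v (N b v) := by
  intro hadj
  have hne : N b v ≠ v := fun h => (S j).loopless.irrefl v (by rw [h] at hadj; exact hadj)
  by_cases hj : j = cl b
  · subst hj
    by_cases h' : N0 b v = v
    · obtain ⟨i, s, -, -, h1, -⟩ := hN.fil b v h' hne
      exact h1 hadj
    · rw [hN.ext b v h'] at hadj
      exact (h0.NG b v h').2 hadj
  · have hA1 : v ∈ A (cl b) := N_A hC h0 hN hne
    have hne' : N b (N b v) ≠ N b v := by
      rw [hN.NN]
      exact fun h => hne h.symm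
    have hA2 : N b v ∈ A (cl b) := N_A hC h0 hN hne'
    have hB1 : v ∈ A j := (hC.wld j).sup v _ (hS j hadj)
    have hB2 : N b v ∈ A j := (hC.wld j).sup _ _ (hS j hadj).symm
    by_cases hv : v ∈ W
    · by_cases hw : N b v ∈ W
      · exact hC.dis j (cl b) v _ hj (S_real hC hS hadj hv hw) (N_real hC h0 hN hne hv hw)
      · exact hj (hC.one j (cl b) _ hw hB2 hA2)
    · exact hj (hC.one j (cl b) _ hv hB1 hA1)

theorem SS_all (hC : Cls H Gh O W A Ex nd pr d D r a MS g δ β c1 C C' ρ0)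
    (hS : ∀ j, S j ≤ Gh j) (j j' : J) (v w : V) (hj : j ≠ j') (h : (S j).Adj v w) :
    ¬ (S j').Adj v w := by
  intro h'
  have hA1 : v ∈ A j := (hC.wld j).sup v _ (hS j h)
  have hA2 : w ∈ A j := (hC.wld j).sup w _ (hS j h).symm
  have hB1 : v ∈ A j' := (hC.wld j').sup v _ (hS j' h')
  have hB2 : w ∈ A j' := (hC.wld j').sup w _ (hS j' h').symm
  by_cases hv : v ∈ W
  · by_cases hw : w ∈ W
    · exact hC.dis j j' v w hj (S_real hC hS h hv hw) (S_real hC hS h' hv hw)
    · exact hj (hC.one j j' _ hw hA2 hB2)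
  · exact hj (hC.one j j' _ hv hA1 hB1)

/-- degrees in the whole graph -/
theorem GG_card (E : SimpleGraph V) (O : Finset V) (S : J → SimpleGraph V) (N : Fin P → V → V)
    (v : V) :
    (nb (GG E O S N) v).card ≤ (nb E v).card + ∑ j, (nb (S j) v).card + P := by
  have h1 : nb (GG E O S N) v ⊆ (nb E v ∪ univ.biUnion fun j => nb (S j) v) ∪
      univ.image fun b => N b v := by
    intro w hw
    rw [mem_nb'] at hw
    rw [mem_union, mem_union, mem_biUnion, mem_image]
    rcases hw.2 with ⟨h, -⟩ | ⟨j, h⟩ | ⟨b, h, -⟩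
    · exact Or.inl (Or.inl ((mem_nb' _ _ _).2 h))
    · exact Or.inl (Or.inr ⟨j, mem_univ _, (mem_nb' _ _ _).2 h⟩)
    · exact Or.inr ⟨b, mem_univ _, h⟩
  have h2 := card_le_card h1
  have h3 := card_union_le (nb E v ∪ univ.biUnion fun j => nb (S j) v) (univ.image fun b => N b v)
  have h4 := card_union_le (nb E v) (univ.biUnion fun j => nb (S j) v)
  have h5 : (univ.biUnion fun j => nb (S j) v).card ≤ ∑ j, (nb (S j) v).card := card_biUnion_le
  have h6 : (univ.image fun b => N b v).card ≤ P := by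
    refine card_image_le.trans ?_
    rw [card_univ, Fintype.card_fin]
  omega

/-- size of the signed numbers -/
theorem sgn_le (hC : Cls H Gh O W A Ex nd pr d D r a MS g δ β c1 C C' ρ0)
    (hD : ∀ j, 1 ≤ D j) (h2 : ∀ j, 2 * r j ≤ D j)
    (h0 : Mt0 H S cl O nd pr d D r a ε1 ρ1 L N0) (b : Fin P) (i : I) :
    ((sgn (nd (cl b)) N0 i b).natAbs : ℝ) ≤ 4 + ρ1 := by
  have h3 := h0.win b i
  have h4 := hC.bal (cl b) i
  have hD1 : (1 : ℝ) ≤ D (cl b) := by exact_mod_cast hD (cl b)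
  have hr1 : 2 * (r (cl b) : ℝ) ≤ D (cl b) := by exact_mod_cast h2 (cl b)
  have hpos : 0 < (D (cl b) : ℝ) - r (cl b) := by linarith
  have h5 : |sdg (H (cl b)) (nd (cl b)) i / ((D (cl b) : ℝ) - r (cl b))| ≤ 2 := by
    rw [abs_div, abs_of_pos hpos, div_le_iff₀ hpos]
    linarith
  rw [Nat.cast_natAbs, Int.cast_abs]
  calc |((sgn (nd (cl b)) N0 i b : ℤ) : ℝ)|
      = |((sgn (nd (cl b)) N0 i b : ℝ) - sdg (H (cl b)) (nd (cl b)) i /
          ((D (cl b) : ℝ) - r (cl b))) + sdg (H (cl b)) (nd (cl b)) i /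
          ((D (cl b) : ℝ) - r (cl b))| := by
        congr 1
        ring
    _ ≤ _ := abs_add_le _ _
    _ ≤ (2 + ρ1) + 2 := add_le_add h3 h5
    _ = 4 + ρ1 := by ring

/-- unfilled vertices seen from one vertex -/
theorem unf_card (hC : Cls H Gh O W A Ex nd pr d D r a MS g δ β c1 C C' ρ0)
    (hS : ∀ j, S j ≤ Gh j) (hD : ∀ j, 1 ≤ D j) (h2 : ∀ j, 2 * r j ≤ D j) (hρ : 0 ≤ ρ1)
    (h0 : Mt0 H S cl O nd pr d D r a ε1 ρ1 L N0) (hN : Mt1 S cl W nd N0 N) (b : Fin P) (v : V) :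
    (((nb (S (cl b)) v).filter fun x => x ∉ O ∧ N b x = x).card : ℝ) ≤ 4 + ρ1 := by
  by_cases hne : ((nb (S (cl b)) v).filter fun x => x ∉ O ∧ N b x = x) = ∅
  · rw [hne, card_empty]
    push_cast
    linarith
  · have key : ∀ x, x ∈ ((nb (S (cl b)) v).filter fun x => x ∉ O ∧ N b x = x) →
        ∃ i s, nd (cl b) v = some (i, s) ∧ nd (cl b) x = some (i, !s) := by
      intro x hx
      rw [mem_filter, mem_nb'] at hx
      obtain ⟨h3, h4, h5⟩ := hx
      have h6 := hS (cl b) h3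
      have hxA : x ∈ A (cl b) := (hC.wld (cl b)).sup x v h6.symm
      have hnd : nd (cl b) x ≠ none := fun h => h4 (((hC.wld (cl b)).cov x hxA).2 h)
      have hxW : x ∉ W := hN.ful b x hnd h5
      have hH : ¬ (H (cl b)).Adj v x := fun h => hxW (hC.HW _ _ _ h.symm)
      exact (hC.wld (cl b)).gad v x h6 hH
    obtain ⟨x0, hx0⟩ := nonempty_iff_ne_empty.2 hne
    obtain ⟨i, s, hv, -⟩ := key x0 hx0
    have hsub : ((nb (S (cl b)) v).filter fun x => x ∉ O ∧ N b x = x) ⊆
        (nod (nd (cl b)) i).filter fun x => N b x = x := by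
      intro x hx
      obtain ⟨i', s', h3, h4⟩ := key x hx
      rw [hv] at h3
      have h5 := Option.some.inj h3
      have h6 : i = i' := congrArg Prod.fst h5
      rw [mem_filter] at hx ⊢
      refine ⟨?_, hx.2.2⟩
      unfold nod
      rw [mem_filter]
      exact ⟨mem_univ _, !s', by rw [h6]; exact h4⟩
    calc (((nb (S (cl b)) v).filter fun x => x ∉ O ∧ N b x = x).card : ℝ)
        ≤ ((nod (nd (cl b)) i).filter fun x => N b x = x).card := by
          exact_mod_cast card_le_card hsub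
      _ = ((sgn (nd (cl b)) N0 i b).natAbs : ℝ) := by rw [hN.cnt b i]
      _ ≤ 4 + ρ1 := sgn_le hC hD h2 h0 b i

/-- the vertices of the node `i` -/
theorem nnj_eq (j : J) (i : I) :
    (univ.filter fun v => nnj nd j v = some i) = nod (nd j) i := by
  ext v
  unfold nod nnj
  rw [mem_filter, mem_filter]
  rcases h : nd j v with _ | ⟨i', s⟩
  · simp
  · simp

/-- the input of the engine -/
theorem allN (hC : Cls H Gh O W A Ex nd pr d D r a MS g δ β c1 C C' ρ0)
    (hP : ∀ j, (univ.filter fun b => cl b = j).card + r j = D j) (hPd : P ≤ d)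
    (hdE : ∀ v, (nb E v).card ≤ d) (hEW : ∀ v w, E.Adj v w → v ∈ W) (hHE : ∀ j, H j ≤ E)
    (hR : ∀ j, ResN (H j) (Gh j) (S j) O (A j) (D j) (r j) a gS δS βS c1S ρS ρL MSS K (Exc j))
    (h0 : Mt0 H S cl O nd pr d D r a ε1 ρ1 L N0) (hN : Mt1 S cl W nd N0 N)
    (hc : Own1 E H S cl O U nd d r a1 C2 e2 ε1 L c N)
    (hD : ∀ j, 1 ≤ D j) (h2 : ∀ j, 2 * r j ≤ D j) (hρ : 0 ≤ ρ1) (K0 T0 : ℕ) (hK2 : 3 ≤ K0)
    (hJd : ∑ j, ((r j : ℝ) + 2) ≤ d) (hK0 : sp d a1 ≤ K0) (hKC : 2 * C' ≤ K0)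
    (hT0 : 2 * sp d a1 + 4 + ρ1 ≤ T0) (hsp : 0 ≤ sp d a1) :
    AllN (GG E O S N) S cl O A (nnj nd) d K0 T0 r c N := by
  have hS : ∀ j, S j ≤ Gh j := fun j => (hR j).sub
  refine ⟨by omega, ?_, ?_, ?_, SS_all hC hS, ?_, ?_, ?_, ?_, ?_, ?_, NS_all hC hS h0 hN, ?_, ?_, ?_,
    ?_, ?_, ?_, ?_⟩
  · intro j
    have := hP j
    have := (hC.Dd j).1
    omega
  · -- degrees
    intro v
    have h1 := GG_card E O S N v
    have h3 := hdE v
    have h4 : ((∑ j, (nb (S j) v).card : ℕ) : ℝ) ≤ d := by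
      push_cast
      refine le_trans (Finset.sum_le_sum fun j _ => ?_) hJd
      exact_mod_cast (hR j).cl.hi v
    have h5 : ∑ j, (nb (S j) v).card ≤ d := by exact_mod_cast h4
    calc (nb (GG E O S N) v).card ≤ 3 * d := by omega
      _ ≤ K0 * d := Nat.mul_le_mul_right _ hK2
  · intro j v w h
    exact ⟨h.ne, Or.inr (Or.inl ⟨j, h⟩)⟩
  · intro j v w h
    exact (hR j).cl.sup v w h
  · intro j v hv
    exact (hR j).cl.lo v hv
  · intro j v
    have := (hR j).cl.hi v
    omega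
  · intro v hv
    exact hc.UO ((hc.dom v).1 hv)
  · -- own colours are proper
    intro v w hvw hcv heq
    have hv : v ∈ O := hc.UO ((hc.dom v).1 hcv)
    have hw : w ∈ O := hc.UO ((hc.dom w).1 (by rw [← heq]; exact hcv))
    have hvW := hC.OW hv
    have hwW := hC.OW hw
    refine hc.cp v w ?_ hcv heq
    rcases hvw.2 with ⟨h, -⟩ | ⟨j, h⟩ | ⟨b, h, h'⟩
    · exact h
    · exact hHE j (S_real hC hS h hvW hwW)
    · have hne : N b v ≠ v := by rw [h]; exact hvw.1.symm
      have h3 := N_real hC h0 hN hne hvW (by rw [h]; exact hwW)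
      rw [h] at h3
      exact hHE _ h3
  · exact ⟨hN.NN, fun b v h => ⟨h.symm, Or.inr (Or.inr ⟨b, rfl, hN.NN b v⟩)⟩, hN.Nd⟩
  · intro b v h
    exact N_A hC h0 hN h
  · intro v
    have h1 : ((univ.filter fun b => v ∈ tkN O c N b).card : ℝ) ≤ K0 := (hc.own.t1 v).trans hK0
    exact_mod_cast h1
  · intro b v
    have h1 : (((nb (S (cl b)) v).filter fun w => w ∈ tkN O c N b).card : ℝ) ≤ T0 :=
      (hc.own.t2 b v).trans (by linarith)
    exact_mod_cast h1
  · intro b v
    have hsub : ((nb (S (cl b)) v).filter fun w => c w = some b ∨ w ∈ fzN O c N b) ⊆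
        ((nb (S (cl b)) v).filter fun x => c x = some b ∨ (x ∉ O ∧ c (N b x) = some b)) ∪
        ((nb (S (cl b)) v).filter fun x => x ∉ O ∧ N b x = x) := by
      intro w hw
      rw [mem_filter] at hw
      rw [mem_union, mem_filter, mem_filter]
      rcases hw.2 with h | h
      · exact Or.inl ⟨hw.1, Or.inl h⟩
      · unfold fzN at h
        rw [mem_filter] at h
        rcases h.2.2 with h' | h'
        · exact Or.inr ⟨hw.1, h.2.1, h'⟩
        · exact Or.inl ⟨hw.1, Or.inr ⟨h.2.1, h'⟩⟩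
    have h1 := card_le_card hsub
    have h3 := (card_union_le ((nb (S (cl b)) v).filter fun x => c x = some b ∨
      (x ∉ O ∧ c (N b x) = some b)) ((nb (S (cl b)) v).filter fun x => x ∉ O ∧ N b x = x))
    have h4 := hc.ow b v
    have h5 := unf_card hC hS hD h2 hρ h0 hN b v
    have h6 : ((((nb (S (cl b)) v).filter fun w => c w = some b ∨ w ∈ fzN O c N b).card : ℕ) : ℝ)
        ≤ ((nb (S (cl b)) v).filter fun x => c x = some b ∨
          (x ∉ O ∧ c (N b x) = some b)).card +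
        ((nb (S (cl b)) v).filter fun x => x ∉ O ∧ N b x = x).card := by
      exact_mod_cast h1.trans h3
    have h7 : ((((nb (S (cl b)) v).filter fun w => c w = some b ∨ w ∈ fzN O c N b).card : ℕ) : ℝ)
        ≤ T0 := by linarith
    exact_mod_cast h7
  · exact fun j => (hC.wld j).OA
  · intro j v
    have h1 : nnj nd j v ≠ none ↔ nd j v ≠ none := by
      unfold nnj
      simp
    rw [h1]
    constructor
    · intro h
      have h3 := (hC.wld j).nA v h
      exact ⟨h3, fun hO => h (((hC.wld j).cov v h3).1 hO)⟩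
    · rintro ⟨h3, h4⟩ h
      exact h4 (((hC.wld j).cov v h3).2 h)
  · intro j i
    rw [nnj_eq j i]
    have h1 : nod (nd j) i ⊆ nsd (nd j) i false ∪ nsd (nd j) i true := by
      intro v hv
      unfold nod at hv
      rw [mem_filter] at hv
      obtain ⟨-, s, hs⟩ := hv
      rw [mem_union]
      unfold nsd
      rw [mem_filter, mem_filter]
      cases s
      · exact Or.inl ⟨mem_univ _, hs⟩
      · exact Or.inr ⟨mem_univ _, hs⟩
    have h3 := (card_le_card h1).trans (card_union_le _ _)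
    have h4 := (hC.wld j).sz2 i false
    have h5 := (hC.wld j).sz2 i true
    have h6 : ((nod (nd j) i).card : ℝ) ≤ (nsd (nd j) i false).card + (nsd (nd j) i true).card := by
      exact_mod_cast h3
    have h7 : (D j : ℝ) ≤ d := by exact_mod_cast (hC.Dd j).1
    have h8 : (0 : ℝ) ≤ D j := Nat.cast_nonneg _
    have h9 : (0 : ℝ) ≤ K0 := Nat.cast_nonneg _
    calc ((nod (nd j) i).card : ℝ) ≤ 2 * C' * D j := by linarith
      _ ≤ K0 * D j := mul_le_mul_of_nonneg_right hKC h8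
      _ ≤ K0 * d := mul_le_mul_of_nonneg_left h7 h9

end Pool.Agent.Work.MP_db9399_ox
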