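import Pool.Agent.Work.MP_db9399_ox.Interface
import Pool.Agent.Work.MP_db9399_cg_helper35.Kern
import Pool.Agent.Work.MP_db9399_sg_helper48.KERX

/-! # OUTX: weights and elementary facts on the averaged kernels (helper72) -/

set_option autoImplicit false
set_option linter.unusedSectionVars false

namespace Pool.Agent.Work.MP_db9399_ox

open Finset Classical
open Pool.Agent.Work.MP_db9399_all (nb)
open Pool.Agent.Work.MP_db9399_cg (cdg pk sx sp)
open Pool.Agent.Work.MP_db9399_cg.helper35 (iter_succ iter_eq pk_nonneg wlk_eq last_step)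
open Pool.Agent.Work.MP_db9399_sg
open Pool.Agent.Work.MP_db9399_en (HH wlk resE resO Wts)

universe u

theorem card_Ico' (L : ℕ) : ((Ico L (2 * L)).card : ℝ) = L := by
  rw [Nat.card_Ico]
  congr 1
  omega

theorem wt_card (L i : ℕ) (p : ℕ → ℕ → Prop) [∀ i, DecidablePred (p i)] (h : ∀ l ∈ Ico L (2 * L), p i l) :
    (((Ico L (2 * L)).filter fun l => p i l).card : ℝ) = L := by
  rw [Finset.filter_true_of_mem h]
  exact card_Ico' L

theorem wt0_wts (L : ℕ) (hL : 1 ≤ L) : Wts (2 * L) (wt0 L) := by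
  have hL0 : (0 : ℝ) < L := by exact_mod_cast hL
  refine ⟨?_, ?_, ?_, ?_, ?_⟩
  · unfold wt0
    rw [wt_card L 0 (fun i l => i < 2 * l) (fun l hl => by rw [mem_Ico] at hl; omega)]
    exact div_self hL0.ne'
  · unfold wt0
    rw [wt_card L 1 (fun i l => i < 2 * l) (fun l hl => by rw [mem_Ico] at hl; omega)]
    exact div_self hL0.ne'
  · intro i
    unfold wt0
    refine div_le_div_of_nonneg_right ?_ hL0.le
    have : ((Ico L (2 * L)).filter fun l => i + 1 < 2 * l) ⊆
        (Ico L (2 * L)).filter fun l => i < 2 * l := by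
      intro l hl
      rw [mem_filter] at hl ⊢
      exact ⟨hl.1, by omega⟩
    exact_mod_cast card_le_card this
  · intro i
    unfold wt0
    positivity
  · intro i hi
    unfold wt0
    rw [Finset.filter_false_of_mem (fun l hl => by rw [mem_Ico] at hl; omega), card_empty]
    simp

theorem wt1_wts (L : ℕ) (hL : 2 ≤ L) : Wts (2 * L) (wt1 L) := by
  have hL0 : (0 : ℝ) < L := by
    have : 0 < L := by omega
    exact_mod_cast this
  refine ⟨?_, ?_, ?_, ?_, ?_⟩
  · unfold wt1
    rw [wt_card L 0 (fun i l => i < 2 * l - 1) (fun l hl => by rw [mem_Ico] at hl; omega)]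
    exact div_self hL0.ne'
  · unfold wt1
    rw [wt_card L 1 (fun i l => i < 2 * l - 1) (fun l hl => by rw [mem_Ico] at hl; omega)]
    exact div_self hL0.ne'
  · intro i
    unfold wt1
    refine div_le_div_of_nonneg_right ?_ hL0.le
    have : ((Ico L (2 * L)).filter fun l => i + 1 < 2 * l - 1) ⊆
        (Ico L (2 * L)).filter fun l => i < 2 * l - 1 := by
      intro l hl
      rw [mem_filter] at hl ⊢
      exact ⟨hl.1, by omega⟩
    exact_mod_cast card_le_card this
  · intro i
    unfold wt1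
    positivity
  · intro i hi
    unfold wt1
    rw [Finset.filter_false_of_mem (fun l hl => by rw [mem_Ico] at hl; omega), card_empty]
    simp

/-- the difference of two consecutive values of a counting weight, tested -/
theorem wt_tel (L n : ℕ) (hn : 2 * L ≤ n) (p q : ℕ → ℕ → Prop) [∀ i, DecidablePred (p i)]
    [∀ i, DecidablePred (q i)]
    (hpq : ∀ i l, L ≤ l → ((p i l ∧ ¬ q i l) ↔ l = i + 1)) (hqp : ∀ i l, q i l → p i l)
    (F : ℕ → ℝ) :
    ∑ i ∈ range n, ((((Ico L (2 * L)).filter fun l => p i l).card : ℝ) / L -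
      (((Ico L (2 * L)).filter fun l => q i l).card : ℝ) / L) * F i =
    (∑ l ∈ Ico L (2 * L), if 1 ≤ l then F (l - 1) else 0) / L := by
  have h1 : ∀ i, (((Ico L (2 * L)).filter fun l => p i l).card : ℝ) / L -
      (((Ico L (2 * L)).filter fun l => q i l).card : ℝ) / L =
      (∑ l ∈ Ico L (2 * L), if l = i + 1 then (1 : ℝ) else 0) / L := by
    intro i
    rw [← sub_div]
    congr 1
    rw [Finset.card_filter, Finset.card_filter]
    push_cast
    rw [← Finset.sum_sub_distrib]
    refine Finset.sum_congr rfl fun l hl => ?_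
    have h2 := hpq i l (mem_Ico.1 hl).1
    have h3 := hqp i l
    by_cases hp : p i l
    · by_cases hq : q i l
      · rw [if_pos hp, if_pos hq, if_neg (fun h => (h2.2 h).2 hq)]
        ring
      · rw [if_pos hp, if_neg hq, if_pos (h2.1 ⟨hp, hq⟩)]
        ring
    · rw [if_neg hp, if_neg (fun h => hp (h3 h)), if_neg (fun h => hp (h2.2 h).1)]
      ring
  simp_rw [h1, div_mul_eq_mul_div]
  rw [← Finset.sum_div]
  congr 1
  simp_rw [Finset.sum_mul]
  rw [Finset.sum_comm]
  refine Finset.sum_congr rfl fun l hl => ?_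
  rw [mem_Ico] at hl
  by_cases h0 : 1 ≤ l
  · rw [if_pos h0, Finset.sum_eq_single (l - 1)]
    · rw [if_pos (by omega), one_mul]
    · intro i _ hne
      rw [if_neg (by omega), zero_mul]
    · intro h
      exact absurd (Finset.mem_range.2 (by omega)) h
  · omega

theorem wt_tel0 (L n : ℕ) (p q : ℕ → ℕ → Prop) [∀ i, DecidablePred (p i)]
    [∀ i, DecidablePred (q i)]
    (hpq : ∀ i l, L ≤ l → (p i l ↔ q i l)) (F : ℕ → ℝ) :
    ∑ i ∈ range n, ((((Ico L (2 * L)).filter fun l => p i l).card : ℝ) / L -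
      (((Ico L (2 * L)).filter fun l => q i l).card : ℝ) / L) * F i = 0 := by
  refine Finset.sum_eq_zero fun i _ => ?_
  have h : ((Ico L (2 * L)).filter fun l => p i l) = (Ico L (2 * L)).filter fun l => q i l :=
    Finset.filter_congr fun l hl => hpq i l (mem_Ico.1 hl).1
  rw [h, sub_self, zero_mul]

section Ker

variable {V : Type u} [Fintype V] (S : SimpleGraph V) (r L : ℕ)

theorem resE_wt (hL : 1 ≤ L) (A B : Finset V) (v : V) :
    resE S r (2 * L) (wt0 L) (wt1 L) A B v =
      ∑ x ∈ A, k0 S r L v x - ∑ x ∈ B, k1 S r L v x := by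
  unfold resE
  have h1 := wt_tel L (2 * L) le_rfl (fun i l => 2 * i + 1 < 2 * l) (fun i l => 2 * i + 2 < 2 * l)
    (fun i l _ => by omega) (fun i l h => by omega) (fun i => wlk S r A (2 * i + 2) v)
  have h2 := wt_tel L (2 * L) le_rfl (fun i l => 2 * i < 2 * l - 1)
    (fun i l => 2 * i + 1 < 2 * l - 1)
    (fun i l _ => by omega) (fun i l h => by omega) (fun i => wlk S r B (2 * i + 1) v)
  unfold wt0 wt1
  rw [h1, h2]
  unfold k0 k1
  rw [← Finset.sum_div, ← Finset.sum_div, Finset.sum_comm (s := A), Finset.sum_comm (s := B)]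
  congr 2
  · refine Finset.sum_congr rfl fun l hl => ?_
    rw [mem_Ico] at hl
    rw [if_pos (by omega), wlk_eq]
    refine Finset.sum_congr rfl fun x _ => ?_
    congr 1
    omega
  · refine Finset.sum_congr rfl fun l hl => ?_
    rw [mem_Ico] at hl
    rw [if_pos (by omega), wlk_eq]
    refine Finset.sum_congr rfl fun x _ => ?_
    congr 1
    omega

theorem resO_wt (A B : Finset V) (v : V) :
    resO S r (2 * L) (wt0 L) (wt1 L) A B v = 0 := by
  unfold resO wt0 wt1
  rw [wt_tel0 L (2 * L) (fun i l => 2 * i < 2 * l) (fun i l => 2 * i + 1 < 2 * l)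
    (fun i l _ => by omega) (fun i => wlk S r A (2 * i + 1) v),
    wt_tel0 L (2 * L) (fun i l => 2 * i + 1 < 2 * l - 1) (fun i l => 2 * i + 2 < 2 * l - 1)
    (fun i l _ => by omega) (fun i => wlk S r B (2 * i + 2) v), sub_zero]

theorem k0_nonneg (v x : V) : 0 ≤ k0 S r L v x :=
  div_nonneg (Finset.sum_nonneg fun _ _ => pk_nonneg S r _ v x) (Nat.cast_nonneg L)

theorem k1_nonneg (v x : V) : 0 ≤ k1 S r L v x :=
  div_nonneg (Finset.sum_nonneg fun _ _ => pk_nonneg S r _ v x) (Nat.cast_nonneg L)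

/-- total mass after `j` steps -/
theorem mass (hr : 0 < r) (hi : ∀ v, (nb S v).card ≤ r + 2) (j : ℕ) (v : V) :
    ∑ x, pk S r j v x ≤ (((r : ℝ) + 2) / r) ^ j := by
  have hr' : (0 : ℝ) < r := by exact_mod_cast hr
  induction j generalizing v with
  | zero => simp [pk]
  | succ j ih =>
    simp_rw [Pool.Agent.Work.MP_db9399_cg.helper35.pk_succ]
    rw [← Finset.sum_div, Finset.sum_comm]
    have h1 : ∑ w ∈ nb S v, ∑ x, pk S r j w x ≤ ((r : ℝ) + 2) * (((r : ℝ) + 2) / r) ^ j := by
      calc ∑ w ∈ nb S v, ∑ x, pk S r j w x ≤ ∑ w ∈ nb S v, (((r : ℝ) + 2) / r) ^ j :=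
            Finset.sum_le_sum fun w _ => ih w
        _ = ((nb S v).card : ℝ) * (((r : ℝ) + 2) / r) ^ j := by
            rw [Finset.sum_const, nsmul_eq_mul]
        _ ≤ ((r : ℝ) + 2) * (((r : ℝ) + 2) / r) ^ j := by
            refine mul_le_mul_of_nonneg_right ?_ (by positivity)
            exact_mod_cast hi v
    calc (∑ w ∈ nb S v, ∑ x, pk S r j w x) / r ≤
          (((r : ℝ) + 2) * (((r : ℝ) + 2) / r) ^ j) / r := div_le_div_of_nonneg_right h1 hr'.le
      _ = (((r : ℝ) + 2) / r) ^ (j + 1) := by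
          rw [pow_succ]
          ring

/-- mass of a set which meets every neighbourhood in at most `τ` vertices -/
theorem mass_set (hr : 0 < r) (hi : ∀ v, (nb S v).card ≤ r + 2) (T : Finset V) (τ : ℝ)
    (hT : ∀ y, ((nb S y ∩ T).card : ℝ) ≤ τ) (j : ℕ) (v : V) :
    ∑ x ∈ T, pk S r (j + 1) v x ≤ τ / r * (((r : ℝ) + 2) / r) ^ j := by
  have hr' : (0 : ℝ) < r := by exact_mod_cast hr
  have h1 := last_step S r j hr (fun x => if x ∈ T then 1 else 0) (τ / r) (fun y => by
    rw [div_mul_cancel₀ _ hr'.ne', Finset.sum_boole]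
    refine le_trans (le_of_eq ?_) (hT y)
    congr 2) v
  have h2 : ∑ x, pk S r (j + 1) v x * (if x ∈ T then (1 : ℝ) else 0) =
      ∑ x ∈ T, pk S r (j + 1) v x := by
    simp [Finset.sum_ite_mem]
  rw [h2] at h1
  refine h1.trans ?_
  have h3 : 0 ≤ τ := le_trans (Nat.cast_nonneg _) (hT v)
  exact mul_le_mul_of_nonneg_left (mass S r hr hi j v) (by positivity)

/-- averaged version -/
theorem mass_avg (hr : 0 < r) (hL : 1 ≤ L) (hi : ∀ v, (nb S v).card ≤ r + 2) (T : Finset V) (τ : ℝ)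
    (hT : ∀ y, ((nb S y ∩ T).card : ℝ) ≤ τ) (h2 : (((r : ℝ) + 2) / r) ^ (4 * L) ≤ 2) (v : V) :
    ∑ x ∈ T, (k0 S r L v x + k1 S r L v x) ≤ 4 * τ / r := by
  have hr' : (0 : ℝ) < r := by exact_mod_cast hr
  have hL0 : (0 : ℝ) < L := by exact_mod_cast hL
  have hτ : 0 ≤ τ := le_trans (Nat.cast_nonneg _) (hT v)
  have hb : 1 ≤ ((r : ℝ) + 2) / r := by
    rw [le_div_iff₀ hr']
    linarith
  have h3 : ∀ j, j + 1 < 4 * L → ∑ x ∈ T, pk S r (j + 1) v x ≤ 2 * τ / r := by
    intro j hj
    refine (mass_set S r hr hi T τ hT j v).trans ?_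
    have h4 : (((r : ℝ) + 2) / r) ^ j ≤ 2 :=
      (pow_le_pow_right₀ hb (by omega)).trans h2
    calc τ / r * (((r : ℝ) + 2) / r) ^ j ≤ τ / r * 2 :=
          mul_le_mul_of_nonneg_left h4 (by positivity)
      _ = 2 * τ / r := by ring
  have h5 : ∑ x ∈ T, (k0 S r L v x + k1 S r L v x) =
      (∑ l ∈ Ico L (2 * L), (∑ x ∈ T, pk S r (2 * l) v x + ∑ x ∈ T, pk S r (2 * l - 1) v x)) / L := by
    unfold k0 k1
    rw [Finset.sum_add_distrib, ← Finset.sum_div, ← Finset.sum_div, ← add_div,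
      Finset.sum_add_distrib, Finset.sum_comm (s := T), Finset.sum_comm (s := T)]
  rw [h5, div_le_iff₀ hL0]
  calc ∑ l ∈ Ico L (2 * L), (∑ x ∈ T, pk S r (2 * l) v x + ∑ x ∈ T, pk S r (2 * l - 1) v x)
      ≤ ∑ l ∈ Ico L (2 * L), (4 * τ / r) := by
        refine Finset.sum_le_sum fun l hl => ?_
        rw [mem_Ico] at hl
        have a1 := h3 (2 * l - 1) (by omega)
        have a2 := h3 (2 * l - 2) (by omega)
        rw [show 2 * l - 1 + 1 = 2 * l by omega] at a1
        rw [show 2 * l - 2 + 1 = 2 * l - 1 by omega] at a2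
        calc _ ≤ 2 * τ / r + 2 * τ / r := add_le_add a1 a2
          _ = 4 * τ / r := by ring
    _ = 4 * τ / r * L := by
        rw [Finset.sum_const, nsmul_eq_mul, card_Ico']
        ring

/-- the support of the averaged kernel -/
theorem supp_avg (R : ℕ) (hR : 1 ≤ R) (hi : ∀ v, (nb S v).card ≤ R) (v : V) :
    (univ.filter fun x => k0 S r L v x + k1 S r L v x ≠ 0).card ≤ (2 * L + 1) * R ^ (4 * L) := by
  have h1 : (univ.filter fun x => k0 S r L v x + k1 S r L v x ≠ 0) ⊆
      (Ico (2 * L - 1) (4 * L)).biUnion fun j => univ.filter fun x => pk S r j v x ≠ 0 := by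
    intro x hx
    rw [mem_filter] at hx
    rw [mem_biUnion]
    by_contra hcon
    push Not at hcon
    apply hx.2
    have hz : ∀ j, j ∈ Ico (2 * L - 1) (4 * L) → pk S r j v x = 0 := by
      intro j hj
      by_contra h3
      exact hcon j hj (mem_filter.2 ⟨mem_univ _, h3⟩)
    have h2 : ∑ l ∈ Ico L (2 * L), pk S r (2 * l) v x = 0 := by
      refine Finset.sum_eq_zero fun l hl => ?_
      rw [mem_Ico] at hl
      exact hz (2 * l) (mem_Ico.2 ⟨by omega, by omega⟩)
    have h3 : ∑ l ∈ Ico L (2 * L), pk S r (2 * l - 1) v x = 0 := by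
      refine Finset.sum_eq_zero fun l hl => ?_
      rw [mem_Ico] at hl
      exact hz (2 * l - 1) (mem_Ico.2 ⟨by omega, by omega⟩)
    unfold k0 k1
    rw [h2, h3, zero_div, add_zero]
  calc (univ.filter fun x => k0 S r L v x + k1 S r L v x ≠ 0).card
      ≤ _ := card_le_card h1
    _ ≤ ∑ j ∈ Ico (2 * L - 1) (4 * L), (univ.filter fun x => pk S r j v x ≠ 0).card :=
        card_biUnion_le
    _ ≤ ∑ j ∈ Ico (2 * L - 1) (4 * L), R ^ (4 * L) := by
        refine Finset.sum_le_sum fun j hj => ?_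
        rw [mem_Ico] at hj
        exact le_trans (Pool.Agent.Work.MP_db9399_sg.helper48.supp_cardR S r R hi j v)
          (Nat.pow_le_pow_right hR (by omega))
    _ ≤ (2 * L + 1) * R ^ (4 * L) := by
        rw [Finset.sum_const, Nat.card_Ico, smul_eq_mul]
        exact Nat.mul_le_mul_right _ (by omega)

theorem pk_symm (hr : 1 ≤ r) (j : ℕ) (v x : V) : pk S r j v x = pk S r j x v := by
  rw [Pool.Agent.Work.MP_db9399_sg.helper48.pk_hkR S r hr 1 one_pos,
    Pool.Agent.Work.MP_db9399_sg.helper48.pk_hkR S r hr 1 one_pos,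
    Pool.Agent.Work.MP_db9399_cg.helper21.hk_symm]

theorem k_symm (hr : 1 ≤ r) (v x : V) :
    k0 S r L v x + k1 S r L v x = k0 S r L x v + k1 S r L x v := by
  unfold k0 k1
  simp_rw [pk_symm S r hr _ v x]

end Ker

end Pool.Agent.Work.MP_db9399_ox
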